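import Pool.Agent.V7H67.LR.Ideal

/-!
# The ideal of a problem is analytic
-/

set_option autoImplicit false

namespace Pool.Agent.V7H67.LR

open Pool.Agent.H581R2 MeasureTheory Classical

lemma measurable_aeval' {ι : Type} (q : MvPolynomial ι ℚ) :
    Measurable (fun v : ι → ℝ => MvPolynomial.aeval v q) := by
  induction q using MvPolynomial.induction_on with
  | C a =>
    simp only [MvPolynomial.aeval_C]
    exact measurable_const
  | add p q hp hq =>
    simp only [map_add]
    exact hp.add hq
  | mul_X p i hp =>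
    simp only [map_mul, MvPolynomial.aeval_X]
    exact hp.mul (measurable_pi_apply i)

lemma measurableSet_sign {ι : Type} (q : MvPolynomial ι ℚ) (g : SignType) :
    MeasurableSet {v : ι → ℝ | SignType.sign (MvPolynomial.aeval v q) = g} := by
  cases g with
  | zero =>
    have : {v : ι → ℝ | SignType.sign (MvPolynomial.aeval v q) = SignType.zero} =
        {v | MvPolynomial.aeval v q = (0 : ℝ)} := by
      ext v
      exact sign_eq_zero_iff
    rw [this]
    exact measurableSet_eq_fun (measurable_aeval' q) measurable_const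
  | neg =>
    have : {v : ι → ℝ | SignType.sign (MvPolynomial.aeval v q) = SignType.neg} =
        {v | MvPolynomial.aeval v q < (0 : ℝ)} := by
      ext v
      exact sign_eq_neg_one_iff
    rw [this]
    exact measurableSet_lt (measurable_aeval' q) measurable_const
  | pos =>
    have : {v : ι → ℝ | SignType.sign (MvPolynomial.aeval v q) = SignType.pos} =
        {v | (0 : ℝ) < MvPolynomial.aeval v q} := by
      ext v
      exact sign_eq_one_iff
    rw [this]
    exact measurableSet_lt measurable_const (measurable_aeval' q)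

/-- semialgebraic conditions are measurable -/
lemma measurableSet_of_SAP {ι : Type} {p : (ι → ℝ) → Prop} (hp : SAP p) :
    MeasurableSet {v | p v} := by
  obtain ⟨Q, hQ⟩ := hp
  have h1 : {v | p v} = ⋃ τ ∈ {τ : Q → SignType | ∃ v, p v ∧ ∀ q : Q,
      SignType.sign (MvPolynomial.aeval v q.1) = τ q},
      {w : ι → ℝ | ∀ q : Q, SignType.sign (MvPolynomial.aeval w q.1) = τ q} := by
    ext w
    simp only [Set.mem_iUnion, exists_prop, Set.mem_ofPred_eq]
    constructor
    · intro hw
      exact ⟨fun q => SignType.sign (MvPolynomial.aeval w q.1), ⟨w, hw, fun q => rfl⟩,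
        fun q => rfl⟩
    · rintro ⟨τ, ⟨v, hv, h2⟩, h3⟩
      exact hQ v w (fun q hq => (h2 ⟨q, hq⟩).trans (h3 ⟨q, hq⟩).symm) hv
  rw [h1]
  refine MeasurableSet.biUnion (Set.to_countable _) fun τ _ => ?_
  have h2 : {w : ι → ℝ | ∀ q : Q, SignType.sign (MvPolynomial.aeval w q.1) = τ q} =
      ⋂ q : Q, {w : ι → ℝ | SignType.sign (MvPolynomial.aeval w q.1) = τ q} := by
    ext w
    simp
  rw [h2]
  exact MeasurableSet.iInter fun q => measurableSet_sign _ _

instance : Countable Act := by
  let f : Act → ℕ × ℕ × ℕ × ℕ := fun a =>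
    match a with
    | .const r i => (0, r, i, 0)
    | .add r a b => (1, r, a, b)
    | .sub r a b => (2, r, a, b)
    | .mul r a b => (3, r, a, b)
    | .div r a b => (4, r, a, b)
    | .load r i => (5, r, i, 0)
    | .store i r => (6, i, r, 0)
    | .zero i => (7, i, 0, 0)
    | .inc i => (8, i, 0, 0)
  refine Function.Injective.countable (f := f) ?_
  intro a b h
  cases a <;> cases b <;> simp_all [f]

instance {Λ : Type} [Countable Λ] : Countable (Node Λ) := by
  let f : Node Λ → (Act × Λ) ⊕ (ℕ × Λ × Λ) ⊕ Bool := fun a =>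
    match a with
    | .act a l => Sum.inl (a, l)
    | .branch r y n => Sum.inr (Sum.inl (r, y, n))
    | .halt b => Sum.inr (Sum.inr b)
  refine Function.Injective.countable (f := f) ?_
  intro a b h
  cases a <;> cases b <;> simp_all [f]

instance : Countable (Polynomial ℕ) := by
  refine Function.Injective.countable (f := fun p : Polynomial ℕ =>
    ((List.range (p.natDegree + 1)).map p.coeff : List ℕ)) ?_
  intro p q h
  simp only at h
  have hlen := congrArg List.length h
  simp only [List.length_map, List.length_range] at hlen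
  ext i
  by_cases hi : i < p.natDegree + 1
  · have := congrArg (fun l : List ℕ => l[i]?) h
    simp only [List.getElem?_map] at this
    rw [List.getElem?_range hi, List.getElem?_range (by omega)] at this
    simpa using this
  · rw [Polynomial.coeff_eq_zero_of_natDegree_lt (by omega),
      Polynomial.coeff_eq_zero_of_natDegree_lt (by omega)]

/-- machines without their constants, together with a time bound -/
abbrev Sk : Type := Σ n : ℕ, (Fin n → Node (Fin n)) × Fin n × ℕ × Polynomial ℕ

/-- the constants for which the machine has the answers `D` on the inputs of size `n` -/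
def good (sk : Sk) (D : Set RInf) (n : ℕ) : Set (Fin sk.2.2.2.1 → ℝ) :=
  {c | ∀ (x : Fin n → ℝ) (h : List.ofFn x ≠ []), ∃ s, run (List.ofFn c) sk.2.1
    (sk.2.2.2.2.eval n) sk.2.2.1 (initSt (List.ofFn x)) =
      some (decide ((⟨List.ofFn x, h⟩ : RInf) ∈ D), s)}

lemma measurableSet_good {L : Set RInf} (hL : L ∈ NPR) (sk : Sk) (n : ℕ) :
    MeasurableSet (good sk L n) := by
  obtain ⟨KL, cL', P, hP, hPL⟩ := exists_slices hL
  obtain ⟨N, nd, l0, K, p⟩ := sk
  rcases Nat.eq_zero_or_pos n with hn | hn
  · subst hn
    have : good ⟨N, nd, l0, K, p⟩ L 0 = Set.univ := by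
      ext c
      simp [good]
    rw [this]
    exact MeasurableSet.univ
  · -- the condition on the constants
    let φ1 : ((Fin K ⊕ Fin KL) ⊕ Fin n → ℝ) → (Fin n ⊕ Fin K → ℝ) := fun u =>
      Sum.elim (fun i => u (Sum.inr i)) (fun k => u (Sum.inl (Sum.inl k)))
    let φ2 : ((Fin K ⊕ Fin KL) ⊕ Fin n → ℝ) → (Fin n ⊕ Fin KL → ℝ) := fun u =>
      Sum.elim (fun i => u (Sum.inr i)) (fun k => u (Sum.inl (Sum.inr k)))
    have hφ1 : ∀ k, PF (fun v => φ1 v k) := by
      intro k
      rcases k with i | k
      · exact PF.coord _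
      · exact PF.coord _
    have hφ2 : ∀ k, PF (fun v => φ2 v k) := by
      intro k
      rcases k with i | k
      · exact PF.coord _
      · exact PF.coord _
    have h1 := (sap_accept n K nd l0 (p.eval n) true).preimage hφ1
    have h2 := (sap_accept n K nd l0 (p.eval n) false).preimage hφ1
    have h3 := (hP n).preimage hφ2
    have h4 := SAP.forall_block n ((h3.and h1).or (h3.not.and h2))
    have h5 := measurableSet_of_SAP h4
    have h6 : Measurable (fun c : Fin K → ℝ => (Sum.elim c cL' : Fin K ⊕ Fin KL → ℝ)) := by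
      refine measurable_pi_iff.2 fun k => ?_
      rcases k with k | k
      · exact measurable_pi_apply k
      · exact measurable_const
    have h7 := h6 h5
    convert h7 using 1
    ext c
    simp only [good, Set.mem_ofPred_eq, Set.mem_preimage]
    have hx : ∀ x : Fin n → ℝ, List.ofFn x ≠ [] := by
      intro x hh
      have := congrArg List.length hh
      simp at this
      omega
    refine forall_congr' fun x => ?_
    have e1 : (fun i => φ2 (Sum.elim (Sum.elim c cL') x) i) = Sum.elim x cL' := by
      funext i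
      rcases i with i | i <;> rfl
    have e2 : P n (φ2 (Sum.elim (Sum.elim c cL') x)) ↔ (⟨List.ofFn x, hx x⟩ : RInf) ∈ L := by
      rw [← hPL n x (hx x), ← e1]
    rw [e2]
    constructor
    · intro h
      obtain ⟨s, hs⟩ := h (hx x)
      by_cases hm : (⟨List.ofFn x, hx x⟩ : RInf) ∈ L
      · rw [decide_eq_true hm] at hs
        exact Or.inl ⟨hm, s, hs⟩
      · rw [decide_eq_false hm] at hs
        exact Or.inr ⟨hm, s, hs⟩
    · rintro (⟨hm, s, hs⟩ | ⟨hm, s, hs⟩) h
      · exact ⟨s, by rw [decide_eq_true hm]; exact hs⟩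
      · exact ⟨s, by rw [decide_eq_false hm]; exact hs⟩

lemma empty_mem_NPR : (∅ : Set RInf) ∈ NPR := by
  refine ⟨haltM false, 1, 0, fun z => ⟨false, initSt z.1, ?_⟩, fun x => ?_⟩
  · simp only [Polynomial.eval_one]
    rfl
  · constructor
    · intro h
      exact h.elim
    · rintro ⟨y, hy, s, hs⟩
      simp only [Polynomial.eval_one] at hs
      have : (haltM false).outcome 1 (x.1 ++ y) = some (false, initSt (x.1 ++ y)) := rfl
      rw [this] at hs
      simp at hs

/-- the sets of sizes decided by a machine -/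
def slice (L : Set RInf) (sk : Sk) : Set (ℕ → Bool) :=
  {S | ∃ c : Fin sk.2.2.2.1 → ℝ, ∀ n, (S n = true ∧ c ∈ good sk L n) ∨
    (S n = false ∧ c ∈ good sk ∅ n)}

lemma analyticSet_slice {L : Set RInf} (hL : L ∈ NPR) (sk : Sk) : AnalyticSet (slice L sk) := by
  have h1 : MeasurableSet {u : (Fin sk.2.2.2.1 → ℝ) × (ℕ → Bool) |
      ∀ n, (u.2 n = true ∧ u.1 ∈ good sk L n) ∨ (u.2 n = false ∧ u.1 ∈ good sk ∅ n)} := by
    have : {u : (Fin sk.2.2.2.1 → ℝ) × (ℕ → Bool) |
      ∀ n, (u.2 n = true ∧ u.1 ∈ good sk L n) ∨ (u.2 n = false ∧ u.1 ∈ good sk ∅ n)} =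
      ⋂ n, ((fun u : (Fin sk.2.2.2.1 → ℝ) × (ℕ → Bool) => u.2 n) ⁻¹' {true} ∩
        Prod.fst ⁻¹' (good sk L n)) ∪
        ((fun u : (Fin sk.2.2.2.1 → ℝ) × (ℕ → Bool) => u.2 n) ⁻¹' {false} ∩
        Prod.fst ⁻¹' (good sk ∅ n)) := by
      ext u
      simp
    rw [this]
    have hm : ∀ n, Measurable (fun u : (Fin sk.2.2.2.1 → ℝ) × (ℕ → Bool) => u.2 n) := fun n =>
      (measurable_pi_apply n).comp measurable_snd
    refine MeasurableSet.iInter fun n => ?_
    exact ((hm n (measurableSet_singleton _)).inter (measurable_fst (measurableSet_good hL sk n))).union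
      ((hm n (measurableSet_singleton _)).inter
        (measurable_fst (measurableSet_good empty_mem_NPR sk n)))
  have h2 := h1.analyticSet_image (Y := ℕ → Bool) measurable_snd
  convert h2 using 1
  ext S
  simp only [slice, Set.mem_ofPred_eq, Set.mem_image, Prod.exists, exists_eq_right]

/-- The ideal of a problem in `NPR` is analytic. -/
theorem analyticSet_ideal {L : Set RInf} (hL : L ∈ NPR) :
    AnalyticSet {S : ℕ → Bool | cut L S ∈ PR} := by
  have h : {S : ℕ → Bool | cut L S ∈ PR} = ⋃ sk : Sk, slice L sk := by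
    ext S
    simp only [Set.mem_ofPred_eq, Set.mem_iUnion]
    constructor
    · rintro ⟨M, p, hM⟩
      refine ⟨⟨M.size, M.node, M.start, M.consts.length, p⟩, fun k => M.consts[k], fun n => ?_⟩
      have hc : List.ofFn (fun k : Fin M.consts.length => M.consts[k]) = M.consts :=
        List.ofFn_getElem
      by_cases hS : S n = true
      · refine Or.inl ⟨hS, fun x hx => ?_⟩
        obtain ⟨s, hs⟩ := hM ⟨List.ofFn x, hx⟩
        refine ⟨s, ?_⟩
        simp only
        rw [hc]
        have e : decide ((⟨List.ofFn x, hx⟩ : RInf) ∈ cut L S) =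
            decide ((⟨List.ofFn x, hx⟩ : RInf) ∈ L) := by
          apply decide_eq_decide.2
          simp [cut, hS]
        rw [e] at hs
        simpa [Machine.outcome] using hs
      · refine Or.inr ⟨by simpa using hS, fun x hx => ?_⟩
        obtain ⟨s, hs⟩ := hM ⟨List.ofFn x, hx⟩
        refine ⟨s, ?_⟩
        simp only
        rw [hc]
        have e : decide ((⟨List.ofFn x, hx⟩ : RInf) ∈ cut L S) =
            decide ((⟨List.ofFn x, hx⟩ : RInf) ∈ (∅ : Set RInf)) := by
          apply decide_eq_decide.2
          simp [cut, hS]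
        rw [e] at hs
        simpa [Machine.outcome] using hs
    · rintro ⟨⟨N, nd, l0, K, p⟩, c, hc⟩
      refine ⟨⟨N, nd, l0, List.ofFn c⟩, p, fun x => ?_⟩
      have hx : List.ofFn (fun i : Fin x.1.length => x.1[(i : ℕ)]) = x.1 := List.ofFn_getElem
      have hne : List.ofFn (fun i : Fin x.1.length => x.1[(i : ℕ)]) ≠ [] := by rw [hx]; exact x.2
      have hxe : (⟨List.ofFn (fun i : Fin x.1.length => x.1[(i : ℕ)]), hne⟩ : RInf) = x :=
        Subtype.ext hx
      rcases hc x.1.length with ⟨h1, h2⟩ | ⟨h1, h2⟩
      · obtain ⟨s, hs⟩ := h2 (fun i : Fin x.1.length => x.1[(i : ℕ)]) hne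
        rw [hxe, hx] at hs
        refine ⟨s, ?_⟩
        have e : decide (x ∈ cut L S) = decide (x ∈ L) := by
          apply decide_eq_decide.2
          simp [cut, h1]
        rw [e]
        exact hs
      · obtain ⟨s, hs⟩ := h2 (fun i : Fin x.1.length => x.1[(i : ℕ)]) hne
        rw [hxe, hx] at hs
        refine ⟨s, ?_⟩
        have e : decide (x ∈ cut L S) = false := by
          apply decide_eq_false
          simp [cut, h1]
        have e' : @decide (x ∈ (∅ : Set RInf)) (propDecidable _) = false :=
          @decide_eq_false _ (propDecidable _) (by simp)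
        rw [e]
        rw [e'] at hs
        exact hs
  rw [h]
  exact AnalyticSet.iUnion fun sk => analyticSet_slice hL sk

end Pool.Agent.V7H67.LR
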