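import Pool.Agent.V7H67.LR.Link

/-!
# Reading digits of a real constant
-/

set_option autoImplicit false

namespace Pool.Agent.V7H67.LR

open Pool.Agent.H581R2

/-- the real number with the base 16 digits `d 0, d 1, …` after the point -/
noncomputable def dval (d : ℕ → ℕ) : ℝ := ∑' i, (d i : ℝ) / 16 ^ (i + 1)

lemma summable_dval {d : ℕ → ℕ} (hd : ∀ i, d i ≤ 14) :
    Summable (fun i => (d i : ℝ) / 16 ^ (i + 1)) := by
  refine Summable.of_nonneg_of_le (fun i => by positivity) (fun i => ?_)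
    ((summable_geometric_of_lt_one (r := (1 / 16 : ℝ)) (by norm_num) (by norm_num)).mul_left
      (14 / 16))
  have h1 : (d i : ℝ) ≤ 14 := by exact_mod_cast hd i
  have h2 : (14 / 16 : ℝ) * (1 / 16) ^ i = 14 / 16 ^ (i + 1) := by
    rw [pow_succ, one_div, inv_pow]
    field_simp
  rw [h2]
  exact div_le_div_of_nonneg_right h1 (by positivity)

lemma dval_nonneg (d : ℕ → ℕ) : 0 ≤ dval d := tsum_nonneg fun i => by positivity

lemma dval_lt_one {d : ℕ → ℕ} (hd : ∀ i, d i ≤ 14) : dval d < 1 := by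
  have h1 : dval d ≤ ∑' i, (14 / 16 : ℝ) * (1 / 16) ^ i := by
    refine Summable.tsum_le_tsum (fun i => ?_) (summable_dval hd)
      ((summable_geometric_of_lt_one (r := (1 / 16 : ℝ)) (by norm_num) (by norm_num)).mul_left
      (14 / 16))
    have h1 : (d i : ℝ) ≤ 14 := by exact_mod_cast hd i
    have h2 : (14 / 16 : ℝ) * (1 / 16) ^ i = 14 / 16 ^ (i + 1) := by
      rw [pow_succ, one_div, inv_pow]
      field_simp
    rw [h2]
    exact div_le_div_of_nonneg_right h1 (by positivity)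
  rw [tsum_mul_left, tsum_geometric_of_lt_one (by norm_num) (by norm_num)] at h1
  norm_num at h1
  linarith

/-- shift of the digits -/
def sh (k : ℕ) (d : ℕ → ℕ) : ℕ → ℕ := fun i => d (k + i)

lemma sh_le {d : ℕ → ℕ} (hd : ∀ i, d i ≤ 14) (k : ℕ) : ∀ i, sh k d i ≤ 14 := fun i => hd _

lemma dval_step {d : ℕ → ℕ} (hd : ∀ i, d i ≤ 14) (k : ℕ) :
    dval (sh k d) * 16 = d k + dval (sh (k + 1) d) := by
  unfold dval
  rw [(summable_dval (sh_le hd k)).tsum_eq_zero_add, add_mul, ← tsum_mul_right]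
  congr 1
  · simp [sh]
  · congr 1
    funext i
    have : sh k d (i + 1) = sh (k + 1) d i := by simp only [sh]; congr 1; ring
    rw [this, pow_succ _ (i + 1)]
    field_simp

/-- a list of operations as a command -/
def acts : List Act → Cmd
  | [] => .skip
  | a :: l => .seq (.act a) (acts l)

lemma exec_acts (cs : List ℝ) (l : List Act) (s : St) :
    Exec cs (acts l) s (l.length + 1) (l.foldl (fun s a => a.run cs s) s) := by
  induction l generalizing s with
  | nil => exact .skip _ _ (by simp)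
  | cons a l ih =>
    exact .seq (.act a s 1 le_rfl) (ih _) (by simp only [List.length_cons]; omega)

/-- the standard constants are present: `0 ↦ 0`, `1 ↦ 1`, `2 ↦ 16` -/
structure Std (cs : List ℝ) : Prop where
  c0 : cs.getD 0 0 = 0
  c1 : cs.getD 1 0 = 1
  c2 : cs.getD 2 0 = 16

/-- body of the loop reading one digit in `{0, 1}` -/
def bitBody : Cmd :=
  .seq (acts [.mul 1 1 3, .sub 6 1 2])
    (.seq (.ite 6 (acts [.add 1 6 4, .add 7 4 4]) (acts [.sub 7 4 2])) (acts [.sub 5 5 2]))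

/-- reads the digit number `reg 0` of the constant number `3`; the answer is the sign of
`reg 7` -/
def bitC : Cmd :=
  .seq (acts [.const 1 3, .const 2 1, .const 3 2, .const 4 0, .add 5 0 4]) (.loop 5 bitBody)

/-- loop invariant -/
structure BInv (d : ℕ → ℕ) (n m : ℕ) (s0 s : St) : Prop where
  r1 : s.reg 1 = dval (sh (n - m) d)
  r2 : s.reg 2 = 1
  r3 : s.reg 3 = 16
  r4 : s.reg 4 = 0
  r5 : s.reg 5 = m
  idx : s.idx = s0.idx
  mem : s.mem = s0.mem
  reg : ∀ i, i = 0 ∨ 8 ≤ i → s.reg i = s0.reg i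

lemma bitBody_exec (cs : List ℝ) {d : ℕ → ℕ} (hd : ∀ i, d i ≤ 1) {n m : ℕ}
    {s0 s : St} (h : BInv d n m s0 s) :
    ∃ s', Exec cs bitBody s 12 s' ∧ s'.reg 1 = dval (sh (n - m + 1) d) ∧ s'.reg 2 = 1 ∧
      s'.reg 3 = 16 ∧ s'.reg 4 = 0 ∧ s'.reg 5 = (m : ℝ) - 1 ∧ s'.idx = s0.idx ∧
      s'.mem = s0.mem ∧ (∀ i, i = 0 ∨ 8 ≤ i → s'.reg i = s0.reg i) ∧
      (0 ≤ s'.reg 7 ↔ d (n - m) = 1) := by
  have hd14 : ∀ i, d i ≤ 14 := fun i => (hd i).trans (by norm_num)
  have hstep := dval_step hd14 (n - m)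
  have hlt := dval_lt_one (sh_le hd14 (n - m + 1))
  have hge := dval_nonneg (sh (n - m + 1) d)
  have h1 := exec_acts cs [.mul 1 1 3, .sub 6 1 2] s
  set s1 : St := [Act.mul 1 1 3, Act.sub 6 1 2].foldl (fun s a => a.run cs s) s with hs1
  have e1 : s1.reg 1 = (d (n - m) : ℝ) + dval (sh (n - m + 1) d) := by
    rw [← hstep, ← h.r1, ← h.r3, hs1]
    simp [Act.run]
  have e6 : s1.reg 6 = (d (n - m) : ℝ) + dval (sh (n - m + 1) d) - 1 := by
    rw [← hstep, ← h.r1, ← h.r3, hs1]
    simp [Act.run, h.r2]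
  have eo : ∀ i, i ≠ 1 → i ≠ 6 → s1.reg i = s.reg i := by
    intro i hi1 hi6
    rw [hs1]
    simp [Act.run, Function.update_of_ne hi1, Function.update_of_ne hi6]
  have eidx : s1.idx = s.idx := by rw [hs1]; rfl
  have emem : s1.mem = s.mem := by rw [hs1]; rfl
  rcases Nat.le_one_iff_eq_zero_or_eq_one.1 (hd (n - m)) with hz | ho
  · -- digit zero
    have hneg : s1.reg 6 < 0 := by rw [e6, hz]; push_cast; linarith
    have h2 := exec_acts cs [.sub 7 4 2] s1
    set s2 : St := [Act.sub 7 4 2].foldl (fun s a => a.run cs s) s1 with hs2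
    have h3 := exec_acts cs [.sub 5 5 2] s2
    set s3 : St := [Act.sub 5 5 2].foldl (fun s a => a.run cs s) s2 with hs3
    have o2 : ∀ i, i ≠ 7 → s2.reg i = s1.reg i := by
      intro i hi; rw [hs2]; simp [Act.run, Function.update_of_ne hi]
    have o3 : ∀ i, i ≠ 5 → s3.reg i = s2.reg i := by
      intro i hi; rw [hs3]; simp [Act.run, Function.update_of_ne hi]
    have o35 : s3.reg 5 = s2.reg 5 - s2.reg 2 := by rw [hs3]; simp [Act.run]
    have o27 : s2.reg 7 = s1.reg 4 - s1.reg 2 := by rw [hs2]; simp [Act.run]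
    refine ⟨s3, .seq h1 (.seq (.iteF hneg h2 (t := 3) (by simp)) h3 le_rfl) (by simp), ?_, ?_, ?_,
      ?_, ?_, ?_, ?_, ?_, ?_⟩
    · rw [o3 1 (by norm_num), o2 1 (by norm_num), e1, hz]; simp
    · rw [o3 2 (by norm_num), o2 2 (by norm_num), eo 2 (by norm_num) (by norm_num), h.r2]
    · rw [o3 3 (by norm_num), o2 3 (by norm_num), eo 3 (by norm_num) (by norm_num), h.r3]
    · rw [o3 4 (by norm_num), o2 4 (by norm_num), eo 4 (by norm_num) (by norm_num), h.r4]
    · rw [o35, o2 5 (by norm_num), eo 5 (by norm_num) (by norm_num), h.r5, o2 2 (by norm_num),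
        eo 2 (by norm_num) (by norm_num), h.r2]
    · rw [hs3, hs2]; simp only [List.foldl, Act.run]; rw [eidx, h.idx]
    · rw [hs3, hs2]; simp only [List.foldl, Act.run]; rw [emem, h.mem]
    · intro i hi
      rw [o3 i (by omega), o2 i (by omega), eo i (by omega) (by omega), h.reg i hi]
    · rw [o3 7 (by norm_num), o27, eo 4 (by norm_num) (by norm_num), h.r4,
        eo 2 (by norm_num) (by norm_num), h.r2, hz]
      norm_num
  · have hpos : 0 ≤ s1.reg 6 := by rw [e6, ho]; push_cast; linarith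
    have h2 := exec_acts cs [.add 1 6 4, .add 7 4 4] s1
    set s2 : St := [Act.add 1 6 4, Act.add 7 4 4].foldl (fun s a => a.run cs s) s1 with hs2
    have h3 := exec_acts cs [.sub 5 5 2] s2
    set s3 : St := [Act.sub 5 5 2].foldl (fun s a => a.run cs s) s2 with hs3
    have o2 : ∀ i, i ≠ 7 → i ≠ 1 → s2.reg i = s1.reg i := by
      intro i hi hi'; rw [hs2]; simp [Act.run, Function.update_of_ne hi, Function.update_of_ne hi']
    have o3 : ∀ i, i ≠ 5 → s3.reg i = s2.reg i := by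
      intro i hi; rw [hs3]; simp [Act.run, Function.update_of_ne hi]
    have o35 : s3.reg 5 = s2.reg 5 - s2.reg 2 := by rw [hs3]; simp [Act.run]
    have e4 : s1.reg 4 = 0 := by rw [eo 4 (by norm_num) (by norm_num), h.r4]
    have o27 : s2.reg 7 = 0 := by rw [hs2]; simp [Act.run, e4]
    have o21 : s2.reg 1 = s1.reg 6 := by rw [hs2]; simp [Act.run, e4]
    refine ⟨s3, .seq h1 (.seq (.iteT hpos h2 (t := 4) (by simp)) h3 le_rfl) (by simp), ?_, ?_, ?_,
      ?_, ?_, ?_, ?_, ?_, ?_⟩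
    · rw [o3 1 (by norm_num), o21, e6, ho]; push_cast; ring
    · rw [o3 2 (by norm_num), o2 2 (by norm_num) (by norm_num), eo 2 (by norm_num) (by norm_num),
        h.r2]
    · rw [o3 3 (by norm_num), o2 3 (by norm_num) (by norm_num), eo 3 (by norm_num) (by norm_num),
        h.r3]
    · rw [o3 4 (by norm_num), o2 4 (by norm_num) (by norm_num), eo 4 (by norm_num) (by norm_num),
        h.r4]
    · rw [o35, o2 5 (by norm_num) (by norm_num), eo 5 (by norm_num) (by norm_num), h.r5,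
        o2 2 (by norm_num) (by norm_num), eo 2 (by norm_num) (by norm_num), h.r2]
    · rw [hs3, hs2]; simp only [List.foldl, Act.run]; rw [eidx, h.idx]
    · rw [hs3, hs2]; simp only [List.foldl, Act.run]; rw [emem, h.mem]
    · intro i hi
      rw [o3 i (by omega), o2 i (by omega) (by omega), eo i (by omega) (by omega), h.reg i hi]
    · rw [o3 7 (by norm_num), o27, ho]
      simp

lemma bitLoop_exec (cs : List ℝ) {d : ℕ → ℕ} (hd : ∀ i, d i ≤ 1) {n : ℕ} {s0 : St} :
    ∀ (m : ℕ), m ≤ n → ∀ s : St, BInv d n m s0 s →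
    ∃ s', Exec cs (.loop 5 bitBody) s (13 * (m + 1) + 1) s' ∧ s'.idx = s0.idx ∧
      s'.mem = s0.mem ∧ (∀ i, i = 0 ∨ 8 ≤ i → s'.reg i = s0.reg i) ∧
      (0 ≤ s'.reg 7 ↔ d n = 1) := by
  intro m
  induction m with
  | zero =>
    intro hm s h
    obtain ⟨s', hex, h1, h2, h3, h4, h5, hi, hme, hr, h7⟩ := bitBody_exec cs hd h
    have hpos : 0 ≤ s.reg 5 := by rw [h.r5]; simp
    have hneg : s'.reg 5 < 0 := by rw [h5]; norm_num
    refine ⟨s', .whileT hpos hex (.whileF hneg le_rfl) (by omega), hi, hme, hr, ?_⟩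
    simpa using h7
  | succ m ih =>
    intro hm s h
    obtain ⟨s', hex, h1, h2, h3, h4, h5, hi, hme, hr, h7⟩ := bitBody_exec cs hd h
    have hpos : 0 ≤ s.reg 5 := by rw [h.r5]; positivity
    have hinv : BInv d n m s0 s' := by
      refine ⟨?_, h2, h3, h4, ?_, hi, hme, hr⟩
      · rw [h1]; congr 2; omega
      · rw [h5]; push_cast; ring
    obtain ⟨s'', hex', hrest⟩ := ih (by omega) s' hinv
    exact ⟨s'', .whileT hpos hex hex' (by ring_nf; omega), hrest⟩

theorem bitC_exec {cs : List ℝ} (hcs : Std cs) {d : ℕ → ℕ} (hd : ∀ i, d i ≤ 1)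
    (h3 : cs.getD 3 0 = dval d) {n : ℕ} {s : St} (hn : s.reg 0 = n) :
    ∃ s', Exec cs bitC s (13 * (n + 1) + 7) s' ∧ s'.idx = s.idx ∧
      s'.mem = s.mem ∧ (∀ i, i = 0 ∨ 8 ≤ i → s'.reg i = s.reg i) ∧
      (0 ≤ s'.reg 7 ↔ d n = 1) := by
  have h1 := exec_acts cs [.const 1 3, .const 2 1, .const 3 2, .const 4 0, .add 5 0 4] s
  set s1 : St := [Act.const 1 3, Act.const 2 1, Act.const 3 2, Act.const 4 0,
    Act.add 5 0 4].foldl (fun s a => a.run cs s) s with hs1
  have hinv : BInv d n n s s1 := by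
    refine ⟨?_, ?_, ?_, ?_, ?_, rfl, rfl, ?_⟩
    · rw [hs1, Nat.sub_self]
      have : sh 0 d = d := by funext i; simp [sh]
      rw [this, ← h3]
      simp [Act.run]
    · rw [hs1, ← hcs.c1]; simp [Act.run]
    · rw [hs1, ← hcs.c2]; simp [Act.run]
    · rw [hs1, ← hcs.c0]; simp [Act.run]
    · rw [hs1]
      have h0 := hcs.c0
      simp [Act.run, hn]
      simpa using h0
    · intro i hi
      rw [hs1]
      have a1 : i ≠ 1 := by omega
      have a2 : i ≠ 2 := by omega
      have a3 : i ≠ 3 := by omega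
      have a4 : i ≠ 4 := by omega
      have a5 : i ≠ 5 := by omega
      simp [Act.run, Function.update_of_ne a1, Function.update_of_ne a2,
        Function.update_of_ne a3, Function.update_of_ne a4, Function.update_of_ne a5]
  obtain ⟨s', hex, hrest⟩ := bitLoop_exec cs hd n le_rfl s1 hinv
  exact ⟨s', .seq h1 hex (by simp; omega), hrest⟩

/-- sets the registers `1, …, 7` to zero -/
def cleanC : Cmd :=
  acts [.const 1 0, .const 2 0, .const 3 0, .const 4 0, .const 5 0, .const 6 0, .const 7 0]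

theorem cleanC_exec {cs : List ℝ} (hcs : Std cs) (s : St) :
    ∃ s', Exec cs cleanC s 8 s' ∧ s'.idx = s.idx ∧ s'.mem = s.mem ∧
      (∀ i, 1 ≤ i → i ≤ 7 → s'.reg i = 0) ∧ (∀ i, i = 0 ∨ 8 ≤ i → s'.reg i = s.reg i) := by
  refine ⟨_, exec_acts cs [.const 1 0, .const 2 0, .const 3 0, .const 4 0, .const 5 0,
    .const 6 0, .const 7 0] s, rfl, rfl, ?_, ?_⟩
  · intro i h1 h7
    have h0 := hcs.c0
    interval_cases i <;> simpa [Act.run] using h0
  · intro i hi
    have a1 : i ≠ 1 := by omega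
    have a2 : i ≠ 2 := by omega
    have a3 : i ≠ 3 := by omega
    have a4 : i ≠ 4 := by omega
    have a5 : i ≠ 5 := by omega
    have a6 : i ≠ 6 := by omega
    have a7 : i ≠ 7 := by omega
    simp [Act.run, Function.update_of_ne a1, Function.update_of_ne a2,
        Function.update_of_ne a3, Function.update_of_ne a4, Function.update_of_ne a5,
        Function.update_of_ne a6, Function.update_of_ne a7]

end Pool.Agent.V7H67.LR
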