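import Mathlib

/-!
# An analytic ideal of sets of natural numbers is not prime
-/

set_option autoImplicit false

namespace Pool.Agent.V7H67.LR

open Filter Topology MeasureTheory

/-- flip all the values at the places `≥ k` -/
def flip (k : ℕ) (a : ℕ → Bool) : ℕ → Bool := fun n => if n < k then a n else !(a n)

lemma flip_flip (k : ℕ) (a : ℕ → Bool) : flip k (flip k a) = a := by
  funext n
  by_cases h : n < k <;> simp [flip, h]

lemma continuous_flip (k : ℕ) : Continuous (flip k) := by
  refine continuous_pi fun n => ?_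
  by_cases h : n < k
  · simp only [flip, if_pos h]
    exact continuous_apply n
  · simp only [flip, if_neg h]
    have h1 : Continuous (fun a : ℕ → Bool => a n) := continuous_apply n
    have h2 : Continuous (fun b : Bool => !b) := continuous_of_discreteTopology
    exact h2.comp h1

/-- the flip as a homeomorphism -/
def flipHomeo (k : ℕ) : (ℕ → Bool) ≃ₜ (ℕ → Bool) where
  toFun := flip k
  invFun := flip k
  left_inv := flip_flip k
  right_inv := flip_flip k
  continuous_toFun := continuous_flip k
  continuous_invFun := continuous_flip k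

lemma exists_cylinder {U : Set (ℕ → Bool)} (hU : IsOpen U) {a : ℕ → Bool} (ha : a ∈ U) :
    ∃ k : ℕ, ∀ b : ℕ → Bool, (∀ n < k, b n = a n) → b ∈ U := by
  obtain ⟨I, u, hu, hsub⟩ := isOpen_pi_iff.1 hU a ha
  refine ⟨I.sup id + 1, fun b hb => hsub ?_⟩
  intro n hn
  have hlt : n < I.sup id + 1 := Nat.lt_succ_of_le (Finset.le_sup (f := id) hn)
  rw [hb n hlt]
  exact (hu n hn).2

/-- An analytic proper ideal of sets of natural numbers containing the finite sets is not prime:
some set and its complement are both outside of it. -/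
theorem exists_split (J : Set (ℕ → Bool)) (hJ : AnalyticSet J)
    (hunion : ∀ a b, a ∈ J → b ∈ J → (fun n => a n || b n) ∈ J)
    (hfin : ∀ k : ℕ, (fun n => decide (n < k)) ∈ J)
    (hproper : (fun _ => true) ∉ J) :
    ∃ a : ℕ → Bool, a ∉ J ∧ (fun n => !(a n)) ∉ J := by
  by_contra hcon
  push Not at hcon
  -- the complement is analytic too
  have hnot : ∀ a, a ∈ J → (fun n => !(a n)) ∉ J := by
    intro a ha ha'
    have := hunion _ _ ha ha'
    simp only [Bool.or_not_self] at this
    exact hproper this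
  have hcompl : Jᶜ = flip 0 '' J := by
    ext a
    constructor
    · intro ha
      refine ⟨flip 0 a, ?_, flip_flip 0 a⟩
      have h1 := hcon a ha
      have h2 : flip 0 a = fun n => !(a n) := by funext n; simp [flip]
      rw [h2]; exact h1
    · rintro ⟨b, hb, rfl⟩
      have h2 : flip 0 b = fun n => !(b n) := by funext n; simp [flip]
      rw [h2]
      exact hnot b hb
  have hJc : AnalyticSet Jᶜ := by
    rw [hcompl]
    exact hJ.image_of_continuous (continuous_flip 0)
  have hmeas : MeasurableSet J := hJ.measurableSet_of_compl hJc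
  obtain ⟨U, hUo, hU⟩ := hmeas.residualEq_isOpen
  -- the flips preserve the residual filter
  have hflip : ∀ k, Tendsto (flip k) (residual (ℕ → Bool)) (residual (ℕ → Bool)) := fun k =>
    tendsto_residual_of_isOpenMap (continuous_flip k) (flipHomeo k).isOpenMap
  have hU' : ∀ᶠ a in residual (ℕ → Bool), (a ∈ J ↔ a ∈ U) := by
    filter_upwards [hU] with a ha
    exact iff_of_eq ha
  by_cases hne : U.Nonempty
  · obtain ⟨a0, ha0⟩ := hne
    obtain ⟨k, hk⟩ := exists_cylinder hUo ha0
    have h2 : ∀ᶠ a in residual (ℕ → Bool), (a ∈ J ↔ a ∈ U) ∧ (flip k a ∈ J ↔ flip k a ∈ U) :=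
      hU'.and ((hflip k).eventually hU')
    have hdense : Dense {a : ℕ → Bool | (a ∈ J ↔ a ∈ U) ∧ (flip k a ∈ J ↔ flip k a ∈ U)} :=
      dense_of_mem_residual h2
    -- the cylinder is open
    have hopen : IsOpen {b : ℕ → Bool | ∀ n < k, b n = a0 n} := by
      have : {b : ℕ → Bool | ∀ n < k, b n = a0 n} = ⋂ n ∈ Finset.range k, {b | b n = a0 n} := by
        ext b; simp
      rw [this]
      refine isOpen_biInter_finset fun n _ => ?_
      have h1 : Continuous (fun b : ℕ → Bool => b n) := continuous_apply n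
      exact (isOpen_discrete ({a0 n} : Set Bool)).preimage h1
    obtain ⟨b, hb1, hb2⟩ := hdense.exists_mem_open hopen ⟨a0, fun n _ => rfl⟩
    have e1 : b ∈ J := hb1.1.2 (hk b hb2)
    have e2 : flip k b ∈ J := hb1.2.2 (hk _ (fun n hn => by simp [flip, hn, hb2 n hn]))
    have e3 := hunion _ _ (hunion _ _ e1 e2) (hfin k)
    apply hproper
    convert e3 using 1
    funext n
    by_cases h : n < k <;> simp [flip, h]
  · rw [Set.not_nonempty_iff_eq_empty] at hne
    subst hne
    have h2 : ∀ᶠ a in residual (ℕ → Bool), (a ∈ J ↔ a ∈ (∅ : Set (ℕ → Bool))) ∧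
        (flip 0 a ∈ J ↔ flip 0 a ∈ (∅ : Set (ℕ → Bool))) :=
      hU'.and ((hflip 0).eventually hU')
    have hdense : Dense {a : ℕ → Bool | (a ∈ J ↔ a ∈ (∅ : Set (ℕ → Bool))) ∧
        (flip 0 a ∈ J ↔ flip 0 a ∈ (∅ : Set (ℕ → Bool)))} := dense_of_mem_residual h2
    obtain ⟨b, hb⟩ := hdense.nonempty
    have e1 : b ∉ J := fun h => (hb.1.1 h)
    have e2 : flip 0 b ∉ J := fun h => (hb.2.1 h)
    have h3 : flip 0 b = fun n => !(b n) := by funext n; simp [flip]
    rw [h3] at e2
    exact e2 (hcon b e1)

end Pool.Agent.V7H67.LR
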