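import Pool.Agent.V7H67.LR.Analytic
import Pool.Agent.V7H67.LR.Topo

/-!
# Blocks of sizes, and the proof of the theorem
-/

set_option autoImplicit false

namespace Pool.Agent.V7H67.LR

open Pool.Agent.H581R2 MeasureTheory Filter Topology

/-- the length of the blocks -/
def gr (T : ℕ → ℕ) (m : ℕ) : ℕ := 2 ^ m + m + ∑ i ∈ Finset.range (m + 1), T i

lemma gr_strictMono (T : ℕ → ℕ) : StrictMono (gr T) := by
  refine strictMono_nat_of_lt_succ fun m => ?_
  unfold gr
  have h1 : 2 ^ m ≤ 2 ^ (m + 1) := Nat.pow_le_pow_right (by norm_num) (by omega)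
  have h2 : ∑ i ∈ Finset.range (m + 1), T i ≤ ∑ i ∈ Finset.range (m + 1 + 1), T i :=
    Finset.sum_le_sum_of_subset (Finset.range_mono (by omega))
  omega

lemma le_gr (T : ℕ → ℕ) {i m : ℕ} (h : i ≤ m) : T i ≤ gr T m := by
  unfold gr
  have : T i ≤ ∑ i ∈ Finset.range (m + 1), T i :=
    Finset.single_le_sum (f := T) (fun _ _ => Nat.zero_le _) (Finset.mem_range.2 (by omega))
  exact this.trans (Nat.le_add_left _ _)

lemma pow_le_gr (T : ℕ → ℕ) (m : ℕ) : 2 ^ m ≤ gr T m := by
  unfold gr
  omega

lemma lt_gr (T : ℕ → ℕ) (m : ℕ) : m < gr T m := by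
  unfold gr
  have : 0 < 2 ^ m := Nat.pow_pos (by norm_num)
  omega

/-- the start of the block number `i` -/
def nb (T : ℕ → ℕ) : ℕ → ℕ
  | 0 => 0
  | i + 1 => gr T (nb T i)

lemma nb_strictMono (T : ℕ → ℕ) : StrictMono (nb T) :=
  strictMono_nat_of_lt_succ fun i => lt_gr T (nb T i)

/-- the number of the block of a size -/
def blk (T : ℕ → ℕ) (n : ℕ) : ℕ := Nat.findGreatest (fun i => nb T i ≤ n) n

lemma nb_blk_le (T : ℕ → ℕ) (n : ℕ) : nb T (blk T n) ≤ n :=
  Nat.findGreatest_spec (P := fun i => nb T i ≤ n) (Nat.zero_le n) (Nat.zero_le n)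

lemma le_blk (T : ℕ → ℕ) {i n : ℕ} (h : nb T i ≤ n) : i ≤ blk T n :=
  Nat.le_findGreatest (((nb_strictMono T).id_le i).trans h) h

lemma lt_nb_blk (T : ℕ → ℕ) (n : ℕ) : n < nb T (blk T n + 1) := by
  by_contra h
  have := le_blk T (not_lt.1 h)
  omega

lemma blk_lt (T : ℕ → ℕ) {n i : ℕ} (h : n < nb T i) : blk T n < i := by
  by_contra hc
  have := (nb_strictMono T).monotone (not_lt.1 hc)
  have := nb_blk_le T n
  omega

lemma tendsto_poly (p : Polynomial ℕ) :
    Tendsto (fun n : ℕ => ((p.eval n : ℕ) : ℝ) / 2 ^ n) atTop (𝓝 0) := by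
  induction p using Polynomial.induction_on' with
  | add p q hp hq =>
    have := hp.add hq
    rw [add_zero] at this
    refine this.congr fun n => ?_
    rw [Polynomial.eval_add]
    push_cast
    ring
  | monomial k a =>
    have h := (tendsto_pow_const_div_const_pow_of_one_lt k (r := (2 : ℝ)) (by norm_num)).const_mul
      (a : ℝ)
    rw [mul_zero] at h
    refine h.congr fun n => ?_
    rw [Polynomial.eval_monomial]
    push_cast
    ring

lemma exists_poly_le (p : Polynomial ℕ) : ∃ N, ∀ n, N ≤ n → p.eval n ≤ 2 ^ n := by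
  have h := (tendsto_poly p).eventually (gt_mem_nhds (show (0 : ℝ) < 1 by norm_num))
  obtain ⟨N, hN⟩ := eventually_atTop.1 h
  refine ⟨N, fun n hn => ?_⟩
  have h1 := hN n hn
  rw [div_lt_one (by positivity)] at h1
  have h2 : ((p.eval n : ℕ) : ℝ) ≤ ((2 ^ n : ℕ) : ℝ) := by
    push_cast
    exact h1.le
  exact_mod_cast h2

lemma PR_subset_NPR : PR ⊆ NPR := by
  rintro L ⟨M, p, hM⟩
  refine ⟨M, p, 0, fun z => ?_, fun x => ?_⟩
  · obtain ⟨s, hs⟩ := hM z
    exact ⟨_, s, hs⟩
  · obtain ⟨s, hs⟩ := hM x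
    constructor
    · intro hx
      refine ⟨[], by simp, s, ?_⟩
      rw [List.append_nil, hs]
      simp [hx]
    · rintro ⟨y, hy, s', hs'⟩
      simp only [Polynomial.eval_zero, List.length_eq_zero_iff] at hy
      subst hy
      rw [List.append_nil, hs] at hs'
      simp only [Option.some.injEq, Prod.mk.injEq, decide_eq_true_eq] at hs'
      exact hs'.1

/-- a set in `NPR` which is not in `PR` has two restrictions to disjoint sets of sizes which
are not in `PR`, and the first one is not complete -/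
theorem exists_intermediate {L : Set RInf} (hL : L ∈ NPR) (hLP : L ∉ PR) :
    ∃ S : ℕ → Bool, cut L S ∉ PR ∧ ¬ Reduces L (cut L S) := by
  obtain ⟨E, T, hE⟩ := exists_interp hL
  -- one of the three classes of blocks
  have hr : ∃ r < 3, cut L (fun n => decide (blk T n % 3 = r)) ∉ PR := by
    by_contra hcon
    push Not at hcon
    apply hLP
    have h0 := hcon 0 (by norm_num)
    have h1 := hcon 1 (by norm_num)
    have h2 := hcon 2 (by norm_num)
    have h := cut_union (cut_union h0 h1) h2
    have e : cut L (fun n => (decide (blk T n % 3 = 0) || decide (blk T n % 3 = 1)) ||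
        decide (blk T n % 3 = 2)) = L := by
      ext x
      simp only [cut, Set.mem_ofPred_eq, Bool.or_eq_true, decide_eq_true_eq, and_iff_left_iff_imp]
      intro _
      omega
    rwa [e] at h
  obtain ⟨r, -, hr⟩ := hr
  set Φ : (ℕ → Bool) → (ℕ → Bool) := fun a n => decide (blk T n % 3 = r) && a (blk T n / 3)
    with hΦ
  have hΦc : Continuous Φ := by
    refine continuous_pi fun n => ?_
    have h1 : Continuous (fun a : ℕ → Bool => a (blk T n / 3)) := continuous_apply _
    have h2 : Continuous (fun b : Bool => decide (blk T n % 3 = r) && b) :=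
      continuous_of_discreteTopology
    exact h2.comp h1
  have hPol : PolishSpace (ℕ → Bool) := { }
  obtain ⟨a, ha1, ha2⟩ := exists_split (Φ ⁻¹' {S | cut L S ∈ PR})
    ((analyticSet_ideal hL).preimage hΦc) (by
      intro a b ha hb
      simp only [Set.mem_preimage, Set.mem_ofPred_eq] at ha hb ⊢
      refine cut_mono (fun n hn => ?_) (cut_union ha hb)
      simp only [hΦ, Bool.and_eq_true, Bool.or_eq_true, decide_eq_true_eq] at hn ⊢
      tauto) (by
      intro k
      simp only [Set.mem_preimage, Set.mem_ofPred_eq]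
      refine cut_fin hL (k := nb T (3 * k)) fun n hn => ?_
      simp only [hΦ, Bool.and_eq_true, decide_eq_true_eq] at hn
      by_contra hc
      have := le_blk T (not_lt.1 hc)
      omega) (by
      simp only [Set.mem_preimage, Set.mem_ofPred_eq]
      intro h
      apply hr
      refine cut_mono (fun n hn => ?_) h
      simp only [hΦ, Bool.and_eq_true, decide_eq_true_eq] at hn ⊢
      exact ⟨hn, trivial⟩)
  simp only [Set.mem_preimage, Set.mem_ofPred_eq] at ha1 ha2
  refine ⟨Φ a, ha1, fun hred => ha2 ?_⟩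
  obtain ⟨p, hp⟩ := exists_bound_of_reduces hE hred
  obtain ⟨N, hN⟩ := exists_poly_le p
  have h1 : cut L (fun n => Φ (fun k => !(a k)) n && decide (N ≤ n)) ∈ PR := by
    refine hp _ fun n hn m hm hSm => ?_
    simp only [hΦ, Bool.and_eq_true, decide_eq_true_eq, Bool.not_eq_true'] at hn hSm
    obtain ⟨⟨hn1, hn2⟩, hn3⟩ := hn
    obtain ⟨hm1, hm2⟩ := hSm
    have hne : blk T m / 3 ≠ blk T n / 3 := by
      intro h
      rw [h] at hm2
      rw [hn2] at hm2
      simp at hm2
    have hmlt : m < nb T (blk T n + 2) := by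
      calc m ≤ p.eval n := hm
        _ ≤ 2 ^ n := hN n hn3
        _ ≤ gr T n := pow_le_gr T n
        _ < gr T (nb T (blk T n + 1)) := gr_strictMono T (lt_nb_blk T n)
        _ = nb T (blk T n + 2) := rfl
    have hb := blk_lt T hmlt
    have hb3 : blk T m + 3 ≤ blk T n := by omega
    have hmb : m < nb T (blk T m + 1) := lt_nb_blk T m
    calc T m ≤ gr T (nb T (blk T m + 1)) := le_gr T hmb.le
      _ = nb T (blk T m + 2) := rfl
      _ ≤ nb T (blk T n) := (nb_strictMono T).monotone (by omega)
      _ ≤ n := nb_blk_le T n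
  have h2 : cut L (fun n => decide (n < N)) ∈ PR :=
    cut_fin hL (k := N) fun n hn => by simpa using hn
  refine cut_mono (fun n hn => ?_) (cut_union h1 h2)
  simp only [Bool.and_eq_true, Bool.or_eq_true, decide_eq_true_eq]
  rcases le_or_gt N n with h | h
  · exact Or.inl ⟨hn, h⟩
  · exact Or.inr h

end Pool.Agent.V7H67.LR
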