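import Pool.Agent.H581R2.Basic

/-!
# Structured commands and their compilation to flow charts
-/

set_option autoImplicit false

namespace Pool.Agent.V7H67.LR

open Pool.Agent.H581R2

/-- structured commands -/
inductive Cmd : Type
  | skip
  | act (a : Act)
  | seq (c1 c2 : Cmd)
  | ite (r : ℕ) (c1 c2 : Cmd)
  | loop (r : ℕ) (c : Cmd)

/-- `Exec cs c s t s'`: the command `c` run in the state `s` ends in `s'` within `t` steps. -/
inductive Exec (cs : List ℝ) : Cmd → St → ℕ → St → Prop
  | skip (s : St) (t : ℕ) (ht : 1 ≤ t) : Exec cs .skip s t s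
  | act (a : Act) (s : St) (t : ℕ) (ht : 1 ≤ t) : Exec cs (.act a) s t (a.run cs s)
  | seq {c1 c2 : Cmd} {s s' s'' : St} {t1 t2 t : ℕ} (h1 : Exec cs c1 s t1 s')
      (h2 : Exec cs c2 s' t2 s'') (ht : t1 + t2 ≤ t) : Exec cs (.seq c1 c2) s t s''
  | iteT {r : ℕ} {c1 c2 : Cmd} {s s' : St} {t1 t : ℕ} (hr : 0 ≤ s.reg r)
      (h : Exec cs c1 s t1 s') (ht : t1 + 1 ≤ t) : Exec cs (.ite r c1 c2) s t s'
  | iteF {r : ℕ} {c1 c2 : Cmd} {s s' : St} {t1 t : ℕ} (hr : s.reg r < 0)
      (h : Exec cs c2 s t1 s') (ht : t1 + 1 ≤ t) : Exec cs (.ite r c1 c2) s t s'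
  | whileF {r : ℕ} {c : Cmd} {s : St} {t : ℕ} (hr : s.reg r < 0) (ht : 1 ≤ t) :
      Exec cs (.loop r c) s t s
  | whileT {r : ℕ} {c : Cmd} {s s' s'' : St} {t1 t2 t : ℕ} (hr : 0 ≤ s.reg r)
      (h1 : Exec cs c s t1 s') (h2 : Exec cs (.loop r c) s' t2 s'') (ht : t1 + t2 + 1 ≤ t) :
      Exec cs (.loop r c) s t s''

lemma Exec.mono {cs : List ℝ} {c : Cmd} {s s' : St} {t t' : ℕ} (h : Exec cs c s t s')
    (htt : t ≤ t') : Exec cs c s t' s' := by
  cases h with
  | skip _ _ ht => exact .skip _ _ (ht.trans htt)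
  | act a _ _ ht => exact .act a _ _ (ht.trans htt)
  | seq h1 h2 ht => exact .seq h1 h2 (ht.trans htt)
  | iteT hr h ht => exact .iteT hr h (ht.trans htt)
  | iteF hr h ht => exact .iteF hr h (ht.trans htt)
  | whileF hr ht => exact .whileF hr (ht.trans htt)
  | whileT hr h1 h2 ht => exact .whileT hr h1 h2 (ht.trans htt)

/-- positions in a command (one node each) -/
def Pos : Cmd → Type
  | .skip => Unit
  | .act _ => Unit
  | .seq c1 c2 => Pos c1 ⊕ Pos c2
  | .ite _ c1 c2 => Option (Pos c1 ⊕ Pos c2)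
  | .loop _ c => Option (Pos c)

/-- the first position -/
def entry : (c : Cmd) → Pos c
  | .skip => ()
  | .act _ => ()
  | .seq c1 _ => Sum.inl (entry c1)
  | .ite _ _ _ => none
  | .loop _ _ => none

/-- the flow chart of a command; `skip` is a branch with both edges to the next node -/
def code {Λ : Type} : (c : Cmd) → (Pos c → Λ) → Λ → Pos c → Node Λ
  | .skip, _, next, _ => .branch 0 next next
  | .act a, _, next, _ => .act a next
  | .seq c1 c2, emb, _, Sum.inl p =>
      code c1 (fun q => emb (Sum.inl q)) (emb (Sum.inr (entry c2))) p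
  | .seq _ c2, emb, next, Sum.inr p => code c2 (fun q => emb (Sum.inr q)) next p
  | .ite r c1 c2, emb, _, none =>
      .branch r (emb (some (Sum.inl (entry c1)))) (emb (some (Sum.inr (entry c2))))
  | .ite _ c1 _, emb, next, some (Sum.inl p) =>
      code c1 (fun q => emb (some (Sum.inl q))) next p
  | .ite _ _ c2, emb, next, some (Sum.inr p) =>
      code c2 (fun q => emb (some (Sum.inr q))) next p
  | .loop r c, emb, next, none => .branch r (emb (some (entry c))) next
  | .loop _ c, emb, _, some p => code c (fun q => emb (some q)) (emb none) p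

/-- correctness of the compilation -/
theorem reach_of_exec {cs : List ℝ} {c : Cmd} {s s' : St} {t : ℕ} (h : Exec cs c s t s') :
    ∀ {Λ : Type} (nd : Λ → Node Λ) (emb : Pos c → Λ) (next : Λ),
      (∀ p, nd (emb p) = code c emb next p) → Reach cs nd t (emb (entry c)) s next s' := by
  induction h with
  | skip s t ht =>
    intro Λ nd emb next hnd
    have h1 := hnd ()
    have h2 : Reach cs nd 1 (emb (entry .skip)) s next s := by
      by_cases hs : 0 ≤ s.reg 0
      · exact Reach.yes h1 hs
      · exact Reach.no h1 (not_le.1 hs)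
    exact h2.mono ht
  | act a s t ht =>
    intro Λ nd emb next hnd
    exact (Reach.act (hnd ()) s).mono ht
  | @seq c1 c2 s s' s'' t1 t2 t h1 h2 ht ih1 ih2 =>
    intro Λ nd emb next hnd
    have e1 := ih1 nd (fun q => emb (Sum.inl q)) (emb (Sum.inr (entry c2)))
      (fun p => hnd (Sum.inl p))
    have e2 := ih2 nd (fun q => emb (Sum.inr q)) next (fun p => hnd (Sum.inr p))
    exact (e1.trans e2).mono ht
  | @iteT r c1 c2 s s' t1 t hr h ht ih =>
    intro Λ nd emb next hnd
    have e1 : Reach cs nd 1 (emb none) s (emb (some (Sum.inl (entry c1)))) s :=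
      Reach.yes (hnd none) hr
    have e2 := ih nd (fun q => emb (some (Sum.inl q))) next (fun p => hnd (some (Sum.inl p)))
    exact (e1.trans e2).mono (by omega)
  | @iteF r c1 c2 s s' t1 t hr h ht ih =>
    intro Λ nd emb next hnd
    have e1 : Reach cs nd 1 (emb none) s (emb (some (Sum.inr (entry c2)))) s :=
      Reach.no (hnd none) hr
    have e2 := ih nd (fun q => emb (some (Sum.inr q))) next (fun p => hnd (some (Sum.inr p)))
    exact (e1.trans e2).mono (by omega)
  | @whileF r c s t hr ht =>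
    intro Λ nd emb next hnd
    have e1 : Reach cs nd 1 (emb none) s next s := Reach.no (hnd none) hr
    exact e1.mono ht
  | @whileT r c s s' s'' t1 t2 t hr h1 h2 ht ih1 ih2 =>
    intro Λ nd emb next hnd
    have e1 : Reach cs nd 1 (emb none) s (emb (some (entry c))) s := Reach.yes (hnd none) hr
    have e2 := ih1 nd (fun q => emb (some q)) (emb none) (fun p => hnd (some p))
    have e3 := ih2 nd emb next hnd
    exact ((e1.trans e2).trans e3).mono (by omega)

theorem finite_pos (c : Cmd) : Finite (Pos c) := by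
  induction c with
  | skip => exact inferInstanceAs (Finite Unit)
  | act a => exact inferInstanceAs (Finite Unit)
  | seq c1 c2 h1 h2 => exact inferInstanceAs (Finite (Pos c1 ⊕ Pos c2))
  | ite r c1 c2 h1 h2 => exact inferInstanceAs (Finite (Option (Pos c1 ⊕ Pos c2)))
  | loop r c h => exact inferInstanceAs (Finite (Option (Pos c)))

end Pool.Agent.V7H67.LR
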