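import Pool.Agent.V7H67.LR.Interp
import Pool.Agent.H581R2.SA

/-!
# Semialgebraic conditions as lists of operations
-/

set_option autoImplicit false

namespace Pool.Agent.V7H67.LR

open Pool.Agent.H581R2 MvPolynomial

lemma runOps_nil (w : ℕ → ℝ) (σ : ISt) : runOps w [] σ = σ := rfl

lemma runOps_append (w : ℕ → ℝ) (u v : List ℕ) (σ : ISt) :
    runOps w (u ++ v) σ = runOps w v (runOps w u σ) := by
  unfold runOps
  rw [List.foldl_append]

/-- multiplication of the current monomial by a monomial -/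
def Mon {N : ℕ} (u : List ℕ) (s : Fin N →₀ ℕ) : Prop :=
  (∀ o ∈ u, o < 11) ∧ ∀ (w : ℕ → ℝ) (σ : ISt), ∃ p', runOps w u σ =
    ⟨p', σ.mono * aeval (fun i : Fin N => w i) (monomial s (1 : ℚ)), σ.poly, σ.clause, σ.flag,
      σ.cnt⟩

lemma Mon.append {N : ℕ} {u v : List ℕ} {s t : Fin N →₀ ℕ} (hu : Mon u s) (hv : Mon v t) :
    Mon (u ++ v) (s + t) := by
  refine ⟨fun o ho => ?_, fun w σ => ?_⟩
  · rcases List.mem_append.1 ho with h | h
    · exact hu.1 o h
    · exact hv.1 o h
  · obtain ⟨p1, h1⟩ := hu.2 w σ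
    obtain ⟨p2, h2⟩ := hv.2 w (runOps w u σ)
    refine ⟨p2, ?_⟩
    rw [runOps_append, h2, h1]
    have : (monomial (s + t) (1 : ℚ)) = monomial s 1 * monomial t 1 := by
      rw [monomial_mul, one_mul]
    rw [this, map_mul, mul_assoc]

lemma exists_mon {N : ℕ} (s : Fin N →₀ ℕ) : ∃ u, Mon u s := by
  induction s using Finsupp.induction_linear with
  | zero =>
    refine ⟨[], by simp, fun w σ => ⟨σ.ptr, ?_⟩⟩
    have : (monomial (0 : Fin N →₀ ℕ) (1 : ℚ)) = 1 := rfl
    rw [this, map_one, mul_one]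
    rfl
  | add s t hs ht =>
    obtain ⟨u, hu⟩ := hs
    obtain ⟨v, hv⟩ := ht
    exact ⟨u ++ v, hu.append hv⟩
  | single i n =>
    induction n with
    | zero =>
      refine ⟨[], by simp, fun w σ => ⟨σ.ptr, ?_⟩⟩
      have : (monomial (Finsupp.single i 0 : Fin N →₀ ℕ) (1 : ℚ)) = 1 := by
        rw [Finsupp.single_zero]; rfl
      rw [this, map_one, mul_one]
      rfl
    | succ n ih =>
      obtain ⟨u, hu⟩ := ih
      have hv : Mon ([0] ++ List.replicate (i : ℕ) 1 ++ [2]) (Finsupp.single i 1) := by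
        refine ⟨fun o ho => ?_, fun w σ => ?_⟩
        · simp only [List.mem_append, List.mem_singleton, List.mem_replicate] at ho
          omega
        · have hrep : ∀ (k : ℕ) (τ : ISt), runOps w (List.replicate k 1) τ =
              ⟨τ.ptr + k, τ.mono, τ.poly, τ.clause, τ.flag, τ.cnt⟩ := by
            intro k
            induction k with
            | zero => intro τ; rfl
            | succ k ihk =>
              intro τ
              have h1 : runOps w (List.replicate (k + 1) 1) τ =
                  runOps w (List.replicate k 1) (opStep w 1 τ) := rfl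
              rw [h1, ihk]
              simp only [opStep]
              congr 1
              ring
          refine ⟨(i : ℕ), ?_⟩
          rw [runOps_append, runOps_append, hrep]
          have h2 : (monomial (Finsupp.single i 1 : Fin N →₀ ℕ) (1 : ℚ)) = X i := rfl
          rw [h2, aeval_X]
          simp [runOps, opStep]
      refine ⟨u ++ ([0] ++ List.replicate (i : ℕ) 1 ++ [2]), ?_⟩
      rw [Finsupp.single_add]
      exact hu.append hv

/-- addition of a multiple of a polynomial to the current polynomial -/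
def Adds {N : ℕ} (u : List ℕ) (D : ℝ) (q : MvPolynomial (Fin N) ℚ) : Prop :=
  (∀ o ∈ u, o < 11) ∧ ∀ (w : ℕ → ℝ) (σ : ISt), σ.mono = 1 → ∃ p', runOps w u σ =
    ⟨p', 1, σ.poly + D * aeval (fun i : Fin N => w i) q, σ.clause, σ.flag, σ.cnt⟩

lemma Adds.append {N : ℕ} {u v : List ℕ} {D E F : ℝ} {q r s : MvPolynomial (Fin N) ℚ}
    (hu : Adds u D q) (hv : Adds v E r) (h : ∀ x : Fin N → ℝ,
      D * aeval x q + E * aeval x r = F * aeval x s) : Adds (u ++ v) F s := by
  refine ⟨fun o ho => ?_, fun w σ hσ => ?_⟩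
  · rcases List.mem_append.1 ho with h | h
    · exact hu.1 o h
    · exact hv.1 o h
  · obtain ⟨p1, h1⟩ := hu.2 w σ hσ
    obtain ⟨p2, h2⟩ := hv.2 w (runOps w u σ) (by rw [h1])
    refine ⟨p2, ?_⟩
    rw [runOps_append, h2, h1]
    simp only [ISt.mk.injEq, true_and, and_true]
    rw [← h]
    ring

lemma Adds.rep {N : ℕ} {u : List ℕ} {D : ℝ} {q : MvPolynomial (Fin N) ℚ}
    (hu : Adds u D q) (k : ℕ) : ∃ v, Adds v (k * D) q := by
  induction k with
  | zero =>
    refine ⟨[], by simp, fun w σ hσ => ⟨σ.ptr, ?_⟩⟩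
    rw [runOps_nil, ← hσ]
    simp
  | succ k ih =>
    obtain ⟨v, hv⟩ := ih
    exact ⟨v ++ u, hv.append hu fun x => by push_cast; ring⟩

lemma exists_adds {N : ℕ} (q : MvPolynomial (Fin N) ℚ) : ∃ (u : List ℕ) (D : ℕ), 0 < D ∧
    Adds u D q := by
  induction q using MvPolynomial.induction_on' with
  | monomial s a =>
    obtain ⟨u, hu⟩ := exists_mon s
    have hpos : Adds (u ++ [3, 4]) 1 (monomial s (1 : ℚ)) := by
      refine ⟨fun o ho => ?_, fun w σ hσ => ?_⟩
      · rcases List.mem_append.1 ho with h | h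
        · exact hu.1 o h
        · simp only [List.mem_cons, List.not_mem_nil, or_false] at h
          omega
      · obtain ⟨p1, h1⟩ := hu.2 w σ
        refine ⟨p1, ?_⟩
        rw [runOps_append, h1]
        simp [runOps, opStep, hσ]
    have hneg : Adds (u ++ [5, 3, 4]) (-1) (monomial s (1 : ℚ)) := by
      refine ⟨fun o ho => ?_, fun w σ hσ => ?_⟩
      · rcases List.mem_append.1 ho with h | h
        · exact hu.1 o h
        · simp only [List.mem_cons, List.not_mem_nil, or_false] at h
          omega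
      · obtain ⟨p1, h1⟩ := hu.2 w σ
        refine ⟨p1, ?_⟩
        rw [runOps_append, h1]
        simp [runOps, opStep, hσ]
    have hev : ∀ x : Fin N → ℝ, (a.den : ℝ) * aeval x (monomial s a) =
        (a.num : ℝ) * aeval x (monomial s (1 : ℚ)) := by
      intro x
      have e1 : monomial s a = C a * monomial s (1 : ℚ) := by rw [C_mul_monomial, mul_one]
      rw [e1, map_mul, aeval_C, ← mul_assoc]
      congr 1
      have h2 : (a.den : ℚ) * a = a.num := by rw [mul_comm]; exact Rat.mul_den_eq_num a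
      have h3 : ((a.den : ℚ) * a : ℝ) = ((a.num : ℚ) : ℝ) := by exact_mod_cast congrArg (Rat.cast : ℚ → ℝ) h2
      simpa using h3
    rcases le_total 0 a.num with h | h
    · obtain ⟨v, hv⟩ := hpos.rep a.num.toNat
      refine ⟨v, a.den, a.den_pos, ?_⟩
      refine ⟨hv.1, fun w σ hσ => ?_⟩
      obtain ⟨p1, h1⟩ := hv.2 w σ hσ
      refine ⟨p1, ?_⟩
      rw [h1, hev]
      have : ((a.num.toNat : ℕ) : ℝ) = (a.num : ℝ) := by
        have := Int.toNat_of_nonneg h
        exact_mod_cast congrArg (Int.cast : ℤ → ℝ) this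
      rw [this, mul_one]
    · obtain ⟨v, hv⟩ := hneg.rep (-a.num).toNat
      refine ⟨v, a.den, a.den_pos, ?_⟩
      refine ⟨hv.1, fun w σ hσ => ?_⟩
      obtain ⟨p1, h1⟩ := hv.2 w σ hσ
      refine ⟨p1, ?_⟩
      rw [h1, hev]
      have : (((-a.num).toNat : ℕ) : ℝ) = ((-a.num : ℤ) : ℝ) := by
        have := Int.toNat_of_nonneg (Int.neg_nonneg_of_nonpos h)
        exact_mod_cast congrArg (Int.cast : ℤ → ℝ) this
      rw [this]
      push_cast
      simp
  | add q r hq hr =>
    obtain ⟨u, D, hD, hu⟩ := hq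
    obtain ⟨v, E, hE, hv⟩ := hr
    obtain ⟨u', hu'⟩ := hu.rep E
    obtain ⟨v', hv'⟩ := hv.rep D
    refine ⟨u' ++ v', D * E, Nat.mul_pos hD hE, hu'.append hv' fun x => ?_⟩
    rw [map_add]
    push_cast
    ring

open Classical in
/-- test of the sign of a polynomial -/
lemma exists_test {N : ℕ} (q : MvPolynomial (Fin N) ℚ) (g : SignType) : ∃ u : List ℕ,
    (∀ o ∈ u, o < 11) ∧ ∀ (w : ℕ → ℝ) (σ : ISt), σ.mono = 1 → σ.poly = 0 → ∃ p',
      runOps w u σ = ⟨p', 1, 0, if SignType.sign (aeval (fun i : Fin N => w i) q) = g then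
        σ.clause else 0, σ.flag, σ.cnt⟩ := by
  obtain ⟨u, D, hD, hu⟩ := exists_adds q
  have hD' : (0 : ℝ) < D := by exact_mod_cast hD
  cases g with
  | zero =>
    refine ⟨u ++ [6, 8, 6, 9], fun o ho => ?_, fun w σ h1 h2 => ?_⟩
    · rcases List.mem_append.1 ho with h | h
      · exact hu.1 o h
      · simp only [List.mem_cons, List.not_mem_nil, or_false] at h
        omega
    · obtain ⟨p, hp⟩ := hu.2 w σ h1
      refine ⟨p, ?_⟩
      rw [runOps_append, hp, h2]
      set x := aeval (fun i : Fin N => w i) q with hx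
      rcases lt_trichotomy x 0 with h | h | h
      · have e1 : ¬ (0 ≤ (D : ℝ) * x) := not_le.2 (mul_neg_of_pos_of_neg hD' h)
        have e2 : SignType.sign x = -1 := sign_neg h
        simp [runOps, opStep, e1, e2]
      · simp [runOps, opStep, h]
      · have e1 : 0 ≤ (D : ℝ) * x := (mul_pos hD' h).le
        have e3 : ¬ ((D : ℝ) * x ≤ 0) := not_le.2 (mul_pos hD' h)
        have e2 : SignType.sign x = 1 := sign_pos h
        simp [runOps, opStep, e1, e2, e3]
  | neg =>
    refine ⟨u ++ [7, 9], fun o ho => ?_, fun w σ h1 h2 => ?_⟩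
    · rcases List.mem_append.1 ho with h | h
      · exact hu.1 o h
      · simp only [List.mem_cons, List.not_mem_nil, or_false] at h
        omega
    · obtain ⟨p, hp⟩ := hu.2 w σ h1
      refine ⟨p, ?_⟩
      rw [runOps_append, hp, h2]
      set x := aeval (fun i : Fin N => w i) q with hx
      rcases lt_or_ge x 0 with h | h
      · have e1 : ¬ (0 ≤ (D : ℝ) * x) := not_le.2 (mul_neg_of_pos_of_neg hD' h)
        have e2 : SignType.sign x = -1 := sign_neg h
        simp [runOps, opStep, e1, e2]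
      · have e1 : 0 ≤ (D : ℝ) * x := mul_nonneg hD'.le h
        have e2 : ¬ (SignType.sign x = -1) := by
          intro this
          rw [sign_eq_neg_one_iff] at this
          linarith
        simp [runOps, opStep, e1, e2]
  | pos =>
    refine ⟨u ++ [8, 7, 9], fun o ho => ?_, fun w σ h1 h2 => ?_⟩
    · rcases List.mem_append.1 ho with h | h
      · exact hu.1 o h
      · simp only [List.mem_cons, List.not_mem_nil, or_false] at h
        omega
    · obtain ⟨p, hp⟩ := hu.2 w σ h1
      refine ⟨p, ?_⟩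
      rw [runOps_append, hp, h2]
      set x := aeval (fun i : Fin N => w i) q with hx
      rcases lt_or_ge 0 x with h | h
      · have e1 : ¬ ((D : ℝ) * x ≤ 0) := not_le.2 (mul_pos hD' h)
        have e2 : SignType.sign x = 1 := sign_pos h
        simp [runOps, opStep, e1, e2]
      · have e1 : (D : ℝ) * x ≤ 0 := mul_nonpos_of_nonneg_of_nonpos hD'.le h
        have e2 : ¬ (SignType.sign x = 1) := by
          intro this
          rw [sign_eq_one_iff] at this
          linarith
        simp [runOps, opStep, e1, e2]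

open Classical in
/-- conjunction of tests of signs -/
lemma exists_conj {N : ℕ} (g : MvPolynomial (Fin N) ℚ → SignType) (Q : List (MvPolynomial (Fin N) ℚ)) :
    ∃ u : List ℕ, (∀ o ∈ u, o < 11) ∧ ∀ (w : ℕ → ℝ) (σ : ISt), σ.mono = 1 → σ.poly = 0 → ∃ p',
      runOps w u σ = ⟨p', 1, 0,
        if ∀ q ∈ Q, SignType.sign (aeval (fun i : Fin N => w i) q) = g q then
        σ.clause else 0, σ.flag, σ.cnt⟩ := by
  induction Q with
  | nil =>
    refine ⟨[], by simp, fun w σ h1 h2 => ⟨σ.ptr, ?_⟩⟩
    rw [runOps_nil, if_pos (by simp), ← h1, ← h2]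
  | cons q Q ih =>
    obtain ⟨u, hu, hu'⟩ := exists_test q (g q)
    obtain ⟨v, hv, hv'⟩ := ih
    refine ⟨u ++ v, fun o ho => ?_, fun w σ h1 h2 => ?_⟩
    · rcases List.mem_append.1 ho with h | h
      · exact hu o h
      · exact hv o h
    · obtain ⟨p, hp⟩ := hu' w σ h1 h2
      obtain ⟨p', hp'⟩ := hv' w (runOps w u σ) (by rw [hp]) (by rw [hp])
      refine ⟨p', ?_⟩
      rw [runOps_append, hp', hp]
      simp only [ISt.mk.injEq, true_and, and_true, List.forall_mem_cons]
      by_cases a1 : SignType.sign (aeval (fun i : Fin N => w i) q) = g q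
      · simp [a1]
      · simp [a1]

open Classical in
/-- disjunction of conjunctions of tests of signs -/
lemma exists_disj {N : ℕ} (Q : List (MvPolynomial (Fin N) ℚ))
    (G : List (MvPolynomial (Fin N) ℚ → SignType)) :
    ∃ u : List ℕ, (∀ o ∈ u, o < 11) ∧ ∀ (w : ℕ → ℝ) (σ : ISt), σ.mono = 1 → σ.poly = 0 →
      σ.clause = 1 → ∃ (p' : ℕ) (k : ℕ),
      runOps w u σ = ⟨p', 1, 0, 1, σ.flag + k, σ.cnt⟩ ∧ (1 ≤ k ↔
        ∃ g ∈ G, ∀ q ∈ Q, SignType.sign (aeval (fun i : Fin N => w i) q) = g q) := by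
  induction G with
  | nil =>
    refine ⟨[], by simp, fun w σ h1 h2 h3 => ⟨σ.ptr, 0, ?_, by simp⟩⟩
    rw [runOps_nil, Nat.cast_zero, add_zero]
    obtain ⟨a, b, c, d, e, f⟩ := σ
    simp only at h1 h2 h3
    rw [h1, h2, h3]
  | cons g G ih =>
    obtain ⟨u, hu, hu'⟩ := exists_conj g Q
    obtain ⟨v, hv, hv'⟩ := ih
    refine ⟨u ++ [10] ++ v, fun o ho => ?_, fun w σ h1 h2 h3 => ?_⟩
    · rcases List.mem_append.1 ho with h | h
      · rcases List.mem_append.1 h with h | h
        · exact hu o h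
        · simp only [List.mem_singleton] at h
          omega
      · exact hv o h
    · obtain ⟨p, hp⟩ := hu' w σ h1 h2
      have h10 : ∀ τ : ISt, runOps w [10] τ = ⟨τ.ptr, τ.mono, τ.poly, 1, τ.flag + τ.clause, τ.cnt⟩ :=
        fun τ => rfl
      obtain ⟨p', k, hp', hk⟩ := hv' w (runOps w [10] (runOps w u σ)) (by rw [h10, hp])
        (by rw [h10, hp]) (by rw [h10])
      by_cases a1 : ∀ q ∈ Q, SignType.sign (aeval (fun i : Fin N => w i) q) = g q
      · refine ⟨p', k + 1, ?_, ?_⟩
        · rw [runOps_append, runOps_append, hp', h10, hp, if_pos a1, h3]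
          simp only [ISt.mk.injEq, true_and, and_true]
          push_cast
          ring
        · constructor
          · intro _
            exact ⟨g, by simp, a1⟩
          · intro _
            omega
      · refine ⟨p', k, ?_, ?_⟩
        · rw [runOps_append, runOps_append, hp', h10, hp, if_neg a1]
          simp only [ISt.mk.injEq, true_and, and_true]
          ring
        · rw [hk]
          constructor
          · rintro ⟨g', hg', h⟩
            exact ⟨g', by simp [hg'], h⟩
          · rintro ⟨g', hg', h⟩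
            rcases List.mem_cons.1 hg' with rfl | hg'
            · exact absurd h a1
            · exact ⟨g', hg', h⟩

/-- a semialgebraic condition is a list of operations -/
theorem exists_code {N : ℕ} {P : (Fin N → ℝ) → Prop} (hP : SAP P) : ∃ u : List ℕ,
    (∀ o ∈ u, o < 11) ∧ ∀ (w : ℕ → ℝ) (p : ℕ),
      (1 ≤ (runOps w u ⟨p, 1, 0, 1, 0, 0⟩).flag ↔ P (fun i : Fin N => w i)) := by
  classical
  obtain ⟨Q, hQ⟩ := hP
  -- the sign patterns
  let pat : (Fin N → ℝ) → MvPolynomial (Fin N) ℚ → SignType := fun v q =>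
    if q ∈ Q then SignType.sign (aeval v q) else 0
  have hfin : (Set.range fun f : (Q → SignType) => fun q : MvPolynomial (Fin N) ℚ =>
      if h : q ∈ Q then f ⟨q, h⟩ else 0).Finite := Set.finite_range _
  have hfin2 : (pat '' {v | P v}).Finite := by
    refine hfin.subset ?_
    rintro _ ⟨v, _, rfl⟩
    refine ⟨fun q => SignType.sign (aeval v q.1), ?_⟩
    funext q
    by_cases h : q ∈ Q <;> simp [pat, h]
  obtain ⟨u, hu, hu'⟩ := exists_disj Q.toList hfin2.toFinset.toList
  refine ⟨u, hu, fun w p => ?_⟩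
  obtain ⟨p', k, h1, h2⟩ := hu' w ⟨p, 1, 0, 1, 0, 0⟩ rfl rfl rfl
  rw [h1]
  simp only [zero_add, Nat.one_le_cast]
  rw [h2]
  constructor
  · rintro ⟨g, hg, h⟩
    rw [Finset.mem_toList, Set.Finite.mem_toFinset] at hg
    obtain ⟨v, hv, rfl⟩ := hg
    refine hQ v _ (fun q hq => ?_) hv
    have := h q (Finset.mem_toList.2 hq)
    rw [this]
    simp [pat, hq]
  · intro h
    refine ⟨pat (fun i : Fin N => w i), ?_, ?_⟩
    · rw [Finset.mem_toList, Set.Finite.mem_toFinset]
      exact ⟨_, h, rfl⟩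
    · intro q hq
      rw [Finset.mem_toList] at hq
      simp [pat, hq]

end Pool.Agent.V7H67.LR
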