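import Pool.Agent.V7H67.LR.Bits
import Pool.Agent.H581R2.SARun

/-!
# The slices of a set in `NPR` are semialgebraic over finitely many constants
-/

set_option autoImplicit false

namespace Pool.Agent.V7H67.LR

open Pool.Agent.H581R2

lemma getD_ofFn {n : ℕ} (f : Fin n → ℝ) (i : ℕ) :
    (List.ofFn f).getD i 0 = if h : i < n then f ⟨i, h⟩ else 0 := by
  by_cases h : i < n <;> simp [List.getD, h]

/-- acceptance and rejection of inputs of size `n` are semialgebraic in the input and in the
constants -/
lemma sap_accept {Λ : Type} (n K : ℕ) (nd : Λ → Node Λ) (l0 : Λ) (t : ℕ) (b : Bool) :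
    SAP (fun v : Fin n ⊕ Fin K → ℝ => ∃ S', run (List.ofFn fun k => v (Sum.inr k)) nd t l0
      (initSt (List.ofFn fun i => v (Sum.inl i))) = some (b, S')) := by
  classical
  let φ : (Fin n ⊕ Fin K → ℝ) → (VV K → ℝ) := fun v =>
    Sum.elim (fun k => v (Sum.inr k)) (Sum.elim (fun r => if r = 0 then (n : ℝ) else 0)
      (fun i => if h : i < n then v (Sum.inl ⟨i, h⟩) else 0))
  have hφ : ∀ k, PF (fun v => φ v k) := by
    intro k
    rcases k with k | r | i
    · exact PF.coord _
    · by_cases h : r = 0
      · simp only [φ, Sum.elim_inr, Sum.elim_inl, if_pos h]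
        exact PF.constNat n
      · simp only [φ, Sum.elim_inr, Sum.elim_inl, if_neg h]
        exact PF.zero
    · by_cases h : i < n
      · simp only [φ, Sum.elim_inr, dif_pos h]
        exact PF.coord _
      · simp only [φ, Sum.elim_inr, dif_neg h]
        exact PF.zero
  refine SAP.congr ((SAP_run nd b t l0 (fun _ => 0)).preimage hφ) fun v => ?_
  have h1 : initSt (List.ofFn fun i => v (Sum.inl i)) = stOf (φ v) (fun _ => 0) := by
    unfold initSt stOf
    simp only [St.mk.injEq, true_and]
    refine ⟨?_, ?_⟩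
    · funext r
      simp [φ]
    · funext i
      rw [getD_ofFn]
      rfl
  rw [h1]
  rfl

/-- the slices of a set in `NPR` -/
theorem exists_slices {L : Set RInf} (hL : L ∈ NPR) : ∃ (K : ℕ) (c : Fin K → ℝ)
    (P : ∀ n, (Fin n ⊕ Fin K → ℝ) → Prop), (∀ n, SAP (P n)) ∧
    ∀ n (x : Fin n → ℝ) (h : List.ofFn x ≠ []), P n (Sum.elim x c) ↔
      (⟨List.ofFn x, h⟩ : RInf) ∈ L := by
  obtain ⟨M, p, q, -, hM⟩ := hL
  refine ⟨M.consts.length, fun k => M.consts[k], fun n v => ∃ z : Fin (q.eval n) → ℝ, ∃ S',
    run (List.ofFn fun k => v (Sum.inr k)) M.node (p.eval (n + q.eval n)) M.start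
      (initSt ((List.ofFn fun i => v (Sum.inl i)) ++ List.ofFn z)) = some (true, S'),
    fun n => ?_, fun n x h => ?_⟩
  · let φ : ((Fin n ⊕ Fin M.consts.length) ⊕ Fin (q.eval n) → ℝ) →
        (Fin (n + q.eval n) ⊕ Fin M.consts.length → ℝ) := fun u =>
      Sum.elim (Fin.append (fun i => u (Sum.inl (Sum.inl i))) (fun j => u (Sum.inr j)))
        (fun k => u (Sum.inl (Sum.inr k)))
    have hφ : ∀ k, PF (fun v => φ v k) := by
      intro k
      rcases k with i | k
      · refine Fin.addCases (fun i => ?_) (fun j => ?_) i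
        · simp only [φ, Sum.elim_inl, Fin.append_left]
          exact PF.coord _
        · simp only [φ, Sum.elim_inl, Fin.append_right]
          exact PF.coord _
      · exact PF.coord _
    refine SAP.congr (SAP.exists_block (q.eval n) ((sap_accept (n + q.eval n) M.consts.length
      M.node M.start (p.eval (n + q.eval n)) true).preimage hφ)) fun v => ?_
    refine exists_congr fun z => ?_
    have e1 : (List.ofFn fun i => φ (Sum.elim v z) (Sum.inl i)) =
        (List.ofFn fun i => v (Sum.inl i)) ++ List.ofFn z := by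
      rw [← List.ofFn_fin_append]
      rfl
    rw [e1]
    rfl
  · rw [hM]
    have e2 : (List.ofFn fun k => (Sum.elim x (fun k => M.consts[k]) : _ → ℝ) (Sum.inr k)) =
        M.consts := by
      simp only [Sum.elim_inr]
      exact List.ofFn_getElem
    have e3 : (List.ofFn fun k => (Sum.elim x (fun k : Fin M.consts.length => M.consts[k]) : _ → ℝ)
      (Sum.inl k)) = List.ofFn x := rfl
    simp only [e2, e3]
    constructor
    · rintro ⟨z, S', h1⟩
      refine ⟨List.ofFn z, by simp, S', ?_⟩
      unfold Machine.outcome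
      simpa using h1
    · rintro ⟨y, hy, S', h1⟩
      simp only [List.length_ofFn] at hy
      unfold Machine.outcome at h1
      refine ⟨fun i => y[(i : ℕ)]'(by rw [hy]; exact i.2), S', ?_⟩
      have e4 : (List.ofFn fun i : Fin (q.eval n) => y[(i : ℕ)]'(by rw [hy]; exact i.2)) = y := by
        refine List.ext_getElem (by simp [hy]) fun i h1 h2 => ?_
        simp
      rw [e4]
      simpa [hy] using h1

end Pool.Agent.V7H67.LR
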