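import Pool.Agent.V7H67.LR.Stream
import Pool.Agent.V7H67.LR.Code
import Pool.Agent.V7H67.LR.Slice

/-!
# A machine deciding a set in `NPR`, in a time depending only on the size
-/

set_option autoImplicit false

namespace Pool.Agent.V7H67.LR

open Pool.Agent.H581R2

/-- the loop which moves the index register to the end of the input -/
def skipC : Cmd := .loop 5 (acts [.inc 0, .sub 5 5 2])

lemma skipC_exec (cs : List ℝ) : ∀ (j : ℕ) (s : St), s.reg 5 = (j : ℝ) - 1 → s.reg 2 = 1 →
    ∃ s', Exec cs skipC s (4 * j + 1) s' ∧ s'.idx 0 = s.idx 0 + j ∧ s'.mem = s.mem ∧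
      ∀ i, i ≠ 5 → s'.reg i = s.reg i := by
  intro j
  induction j with
  | zero =>
    intro s h5 h2
    refine ⟨s, .whileF (by rw [h5]; norm_num) (by omega), rfl, rfl, fun i _ => rfl⟩
  | succ j ih =>
    intro s h5 h2
    have h1 := exec_acts cs [.inc 0, .sub 5 5 2] s
    set s1 : St := [Act.inc 0, Act.sub 5 5 2].foldl (fun s a => a.run cs s) s with hs1
    have e5 : s1.reg 5 = (j : ℝ) - 1 := by
      simp only [hs1, List.foldl, Act.run, Function.update_self, h5, h2]
      push_cast; ring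
    have e2 : s1.reg 2 = 1 := by simp [hs1, Act.run, h2]
    obtain ⟨s', hex, hi, hm, hr⟩ := ih s1 e5 e2
    refine ⟨s', .whileT (by rw [h5]; push_cast; simp) h1 hex (by simp; omega), ?_, ?_, ?_⟩
    · rw [hi]
      simp only [hs1, List.foldl, Act.run, Function.update_self]
      ring
    · rw [hm]; rfl
    · intro i hi5
      rw [hr i hi5]
      simp [hs1, Act.run, Function.update_of_ne hi5]

/-- the list of operations copying the constants to the array -/
def copyL : ℕ → List Act
  | 0 => []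
  | k + 1 => copyL k ++ [.const 6 (5 + k), .store 0 6, .inc 0]

lemma copyL_fold (cs : List ℝ) (K : ℕ) (s : St) :
    ((copyL K).foldl (fun s a => a.run cs s) s).idx 0 = s.idx 0 + K ∧
    (∀ i, i ≠ 6 → ((copyL K).foldl (fun s a => a.run cs s) s).reg i = s.reg i) ∧
    (∀ i < s.idx 0, ((copyL K).foldl (fun s a => a.run cs s) s).mem i = s.mem i) ∧
    (∀ k < K, ((copyL K).foldl (fun s a => a.run cs s) s).mem (s.idx 0 + k) =
      cs.getD (5 + k) 0) := by
  induction K with
  | zero => simp [copyL]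
  | succ K ih =>
    obtain ⟨h1, h2, h3, h4⟩ := ih
    simp only [copyL, List.foldl_append]
    set s1 := (copyL K).foldl (fun s a => a.run cs s) s with hs1
    refine ⟨?_, ?_, ?_, ?_⟩
    · simp [Act.run, h1]
      ring
    · intro i hi
      rw [← h2 i hi]
      simp [Act.run, Function.update_of_ne hi]
    · intro i hi
      rw [← h3 i hi]
      have : i ≠ s1.idx 0 := by omega
      simp [Act.run, Function.update_of_ne this]
    · intro k hk
      rcases Nat.lt_succ_iff_lt_or_eq.1 hk with h | h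
      · rw [← h4 k h]
        have : s.idx 0 + k ≠ s1.idx 0 := by omega
        simp [Act.run, Function.update_of_ne this]
      · subst h
        rw [← h1]
        simp [Act.run]

lemma length_copyL (K : ℕ) : (copyL K).length = 3 * K := by
  induction K with
  | zero => rfl
  | succ K ih => simp [copyL, ih]; ring

/-- the complete program of the interpreter -/
def evalC (K : ℕ) : Cmd :=
  .seq (acts [.const 2 1, .const 4 0, .zero 0, .sub 5 0 2])
  (.seq skipC (.seq (acts (copyL K))
  (.seq (acts [.const 1 4, .const 3 2, .add 5 0 4, .add 7 4 4, .add 8 4 4, .add 9 2 4,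
    .add 10 2 4, .add 11 4 4])
  (.seq (.loop 7 roundC) (acts [.sub 7 11 2])))))

theorem evalC_exec {cs : List ℝ} (hcs : Std cs) {K : ℕ} {c : Fin K → ℝ}
    (hc : ∀ k : Fin K, cs.getD (5 + (k : ℕ)) 0 = c k) {cw : ℕ → List ℕ}
    (hcw : ∀ j, ∀ o ∈ cw j, o < 11) (h4 : cs.getD 4 0 = dval (stream cw)) {m : ℕ}
    {s : St} (hs : s.reg 0 = m) :
    ∃ (w : ℕ → ℝ) (p' : ℕ), (∀ i < m, w i = s.mem i) ∧ (∀ k : Fin K, w (m + k) = c k) ∧
      ∃ s', Exec cs (evalC K) s (TB cw m m + 4 * m + 3 * K + 19) s' ∧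
        s'.reg 7 = (runOps w (cw m) ⟨p', 1, 0, 1, 0, 0⟩).flag - 1 := by
  have hc0 := hcs.c0
  have hc1 := hcs.c1
  have hc2 := hcs.c2
  simp only [List.getD_eq_getElem?_getD] at hc0 hc1 hc2 h4 hc
  -- first part
  have e1 := exec_acts cs [.const 2 1, .const 4 0, .zero 0, .sub 5 0 2] s
  set s1 : St := [Act.const 2 1, Act.const 4 0, Act.zero 0, Act.sub 5 0 2].foldl
    (fun s a => a.run cs s) s with hs1
  have a2 : s1.reg 2 = 1 := by simp [hs1, Act.run, hc1]
  have a4 : s1.reg 4 = 0 := by simp [hs1, Act.run, hc0]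
  have a5 : s1.reg 5 = (m : ℝ) - 1 := by simp [hs1, Act.run, hc1, hs]
  have a0 : s1.reg 0 = m := by simp [hs1, Act.run, hs]
  have ai : s1.idx 0 = 0 := by simp [hs1, Act.run]
  have am : s1.mem = s.mem := by simp [hs1, Act.run]
  clear_value s1
  -- the end of the input
  obtain ⟨s2, e2, b1, b2, b3⟩ := skipC_exec cs m s1 a5 a2
  rw [ai, zero_add] at b1
  -- copy of the constants
  have e3 := exec_acts cs (copyL K) s2
  obtain ⟨c1, c2, c3, c4⟩ := copyL_fold cs K s2
  set s3 := (copyL K).foldl (fun s a => a.run cs s) s2 with hs3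
  rw [length_copyL] at e3
  rw [b1] at c1 c3 c4
  clear_value s3
  have d0 : s3.reg 0 = m := by rw [c2 0 (by norm_num), b3 0 (by norm_num), a0]
  have d2 : s3.reg 2 = 1 := by rw [c2 2 (by norm_num), b3 2 (by norm_num), a2]
  have d4 : s3.reg 4 = 0 := by rw [c2 4 (by norm_num), b3 4 (by norm_num), a4]
  -- last preparation
  have e4 := exec_acts cs [.const 1 4, .const 3 2, .add 5 0 4, .add 7 4 4, .add 8 4 4,
    .add 9 2 4, .add 10 2 4, .add 11 4 4] s3
  set s4 : St := [Act.const 1 4, Act.const 3 2, Act.add 5 0 4, Act.add 7 4 4, Act.add 8 4 4,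
    Act.add 9 2 4, Act.add 10 2 4, Act.add 11 4 4].foldl (fun s a => a.run cs s) s3 with hs4
  have hrel : Rel s3.mem (dval (sh (startP cw (m - m)) (stream cw)))
      ⟨m + K, 1, 0, 1, 0, (m : ℝ)⟩ s4 := by
    have hsh : sh 0 (stream cw) = stream cw := by funext i; simp [sh]
    rw [Nat.sub_self]
    simp only [startP, hsh]
    refine ⟨?_, ?_, ?_, ?_, ?_, ?_, ?_, ?_, ?_, ?_, ?_⟩ <;>
      simp [hs4, Act.run, d0, d2, d4, h4, hc2, c1]
  have h7 : s4.reg 7 = 0 := by simp [hs4, Act.run, d4]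
  obtain ⟨s5, e5, g2, p', g11⟩ := blocks_exec cs hcw m s3.mem m le_rfl (m + K) s4 hrel h7
  have e6 := exec_acts cs [.sub 7 11 2] s5
  refine ⟨s3.mem, p', ?_, ?_, _, .seq e1 (.seq e2 (.seq e3 (.seq e4 (.seq e5 e6 le_rfl) le_rfl)
    le_rfl) le_rfl) ?_, ?_⟩
  · intro i hi
    rw [c3 i hi, b2, am]
  · intro k
    rw [c4 k k.2]
    simpa using hc k
  · simp only [List.length_cons, List.length_nil]
    omega
  · simp [Act.run, g11, g2]

open Classical in
/-- A set in `NPR` is decided by a machine, in a time depending only on the size. The machine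
works also from contents with arbitrary values in the registers other than the one for the
size. -/
theorem exists_interp {L : Set RInf} (hL : L ∈ NPR) : ∃ (E : Machine) (T : ℕ → ℕ),
    ∀ (x : RInf) (s : St), s.reg 0 = (x.1.length : ℝ) →
      (∀ i < x.1.length, s.mem i = x.1.getD i 0) →
      ∃ s', mrun E (T x.1.length) s = some (decide (x ∈ L), s') := by
  obtain ⟨K, c, P, hP, hPL⟩ := exists_slices hL
  have hcode : ∀ n, ∃ u : List ℕ, (∀ o ∈ u, o < 11) ∧ ∀ (w : ℕ → ℝ) (p : ℕ),
      (1 ≤ (runOps w u ⟨p, 1, 0, 1, 0, 0⟩).flag ↔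
        P n (Sum.elim (fun i : Fin n => w i) (fun k : Fin K => w (n + k)))) := by
    intro n
    have h1 : SAP (fun v : Fin (n + K) → ℝ =>
        P n (Sum.elim (fun i : Fin n => v (Fin.castAdd K i)) (fun k => v (Fin.natAdd n k)))) := by
      refine (hP n).preimage (φ := fun v : Fin (n + K) → ℝ =>
        (Sum.elim (fun i : Fin n => v (Fin.castAdd K i)) (fun k => v (Fin.natAdd n k)))) ?_
      intro k
      rcases k with i | k
      · exact PF.coord _
      · exact PF.coord _
    obtain ⟨u, hu, hu'⟩ := exists_code h1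
    exact ⟨u, hu, fun w p => hu' w p⟩
  choose cw hcw hcw' using hcode
  set cs : List ℝ := [0, 1, 16, 0, dval (stream cw)] ++ List.ofFn c with hcs
  obtain ⟨E, hEc, hE1, hE2⟩ := exists_branchM cs (evalC K) 7 .skip .skip (haltM true)
    (haltM false)
  have hEc' : E.consts = cs := by
    rw [hEc]; simp [haltM]
  have hstd : Std E.consts := by
    rw [hEc']
    refine ⟨?_, ?_, ?_⟩ <;> simp [hcs]
  have h4 : E.consts.getD 4 0 = dval (stream cw) := by
    rw [hEc']; simp [hcs]
  have hc : ∀ k : Fin K, E.consts.getD (5 + (k : ℕ)) 0 = c k := by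
    intro k
    rw [hEc', hcs]
    rw [List.getD_append_right _ _ _ _ (by simp)]
    rw [getD_ofFn]
    simp
  refine ⟨E, fun m => TB cw m m + 4 * m + 3 * K + 19 + 1 + 1 + 1, fun x s hs hmem => ?_⟩
  set m := x.1.length with hm
  obtain ⟨w, p', hw1, hw2, s', hex, h7⟩ := evalC_exec hstd hc hcw h4 hs
  have key : (0 ≤ s'.reg 7 ↔ x ∈ L) := by
    rw [h7, sub_nonneg, hcw']
    have hx : List.ofFn (fun i : Fin m => x.1[(i : ℕ)]) = x.1 := List.ofFn_getElem
    have h1 : (fun i : Fin m => w i) = fun i : Fin m => x.1[(i : ℕ)] := by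
      funext i
      rw [hw1 i i.2, hmem i i.2]
      exact List.getD_eq_getElem _ _ _
    have h2 : (fun k : Fin K => w (m + k)) = c := funext hw2
    rw [h1, h2]
    have hne : List.ofFn (fun i : Fin m => x.1[(i : ℕ)]) ≠ [] := by rw [hx]; exact x.2
    rw [hPL m _ hne]
    have : (⟨List.ofFn (fun i : Fin m => x.1[(i : ℕ)]), hne⟩ : RInf) = x := Subtype.ext hx
    rw [this]
  by_cases hxL : x ∈ L
  · refine ⟨s', ?_⟩
    rw [decide_eq_true hxL]
    exact hE1 _ 1 1 s s' s' _ hex (key.2 hxL) (.skip _ _ le_rfl) (mrun_haltM true s')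
  · refine ⟨s', ?_⟩
    rw [decide_eq_false hxL]
    exact hE2 _ 1 1 s s' s' _ hex (not_le.1 fun h => hxL (key.1 h)) (.skip _ _ le_rfl)
      (mrun_haltM false s')

end Pool.Agent.V7H67.LR
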