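import Pool.Agent.V7H67.LR.EvalM

/-!
# The sets of sizes to which the restriction of a problem is in `PR`
-/

set_option autoImplicit false

namespace Pool.Agent.V7H67.LR

open Pool.Agent.H581R2 Classical

/-- the restriction of a problem to the sizes in `S` -/
def cut (L : Set RInf) (S : ℕ → Bool) : Set RInf := {x | x ∈ L ∧ S x.1.length = true}

/-- the contents with the registers `1, …, 7` set to zero -/
noncomputable def cleaned (s : St) : St :=
  ⟨fun i => if 1 ≤ i ∧ i ≤ 7 then 0 else s.reg i, s.idx, s.mem⟩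

lemma cleaned_initSt (x : List ℝ) : cleaned (initSt x) = initSt x := by
  unfold cleaned initSt
  simp only [St.mk.injEq, and_true]
  funext i
  by_cases h : 1 ≤ i ∧ i ≤ 7
  · rw [if_pos h, if_neg (by omega)]
  · rw [if_neg h]

lemma eq_cleaned {s s' : St} (h1 : s'.idx = s.idx) (h2 : s'.mem = s.mem)
    (h3 : ∀ i, 1 ≤ i → i ≤ 7 → s'.reg i = 0) (h4 : ∀ i, i = 0 ∨ 8 ≤ i → s'.reg i = s.reg i) :
    s' = cleaned s := by
  obtain ⟨r', i', m'⟩ := s'
  unfold cleaned
  simp only at h1 h2 h3 h4
  simp only [St.mk.injEq]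
  refine ⟨?_, h1, h2⟩
  funext i
  by_cases h : 1 ≤ i ∧ i ≤ 7
  · rw [if_pos h, h3 i h.1 h.2]
  · rw [if_neg h, h4 i (by omega)]

/-- a machine which tests whether the size belongs to `S`, and runs one of two machines -/
theorem exists_bitM (S : ℕ → Bool) (M1 M2 : Machine) : ∃ M : Machine,
    ∀ (n : ℕ) (s : St) (T : ℕ) (res : Bool × St), s.reg 0 = (n : ℝ) →
      mrun (if S n = true then M1 else M2) T (cleaned s) = some res →
      mrun M (13 * n + 29 + T) s = some res := by
  set d : ℕ → ℕ := fun n => if S n = true then 1 else 0 with hd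
  have hd1 : ∀ n, d n ≤ 1 := by
    intro n
    simp only [hd]
    split <;> omega
  obtain ⟨M, hMc, hM1, hM2⟩ := exists_branchM [0, 1, 16, dval d] bitC 7 cleanC cleanC M1 M2
  have hstd : Std M.consts := by
    rw [hMc]
    refine ⟨?_, ?_, ?_⟩ <;> simp
  have h3 : M.consts.getD 3 0 = dval d := by
    rw [hMc]; simp
  refine ⟨M, fun n s T res hs hrun => ?_⟩
  obtain ⟨s1, hex1, hi1, hm1, hr1, h7⟩ := bitC_exec hstd hd1 h3 hs
  obtain ⟨s2, hex2, hi2, hm2, hz2, hr2⟩ := cleanC_exec hstd s1
  have hs2 : s2 = cleaned s := by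
    refine eq_cleaned (hi2.trans hi1) (hm2.trans hm1) hz2 fun i hi => ?_
    rw [hr2 i hi, hr1 i hi]
  rw [← hs2] at hrun
  by_cases h : S n = true
  · rw [if_pos h] at hrun
    have h7' : 0 ≤ s1.reg 7 := h7.2 (by simp [hd, h])
    exact mrun_mono (hM1 _ _ _ _ _ _ _ hex1 h7' hex2 hrun) (by omega)
  · rw [if_neg h] at hrun
    have h7' : s1.reg 7 < 0 := not_le.1 fun hh => by
      have := h7.1 hh
      simp [hd, h] at this
    exact mrun_mono (hM2 _ _ _ _ _ _ _ hex1 h7' hex2 hrun) (by omega)

lemma initSt_reg0 (x : List ℝ) : (initSt x).reg 0 = (x.length : ℝ) := rfl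

/-- the decision by cases on the size -/
theorem mem_PR_of_cases {A : Set RInf} (S : ℕ → Bool) (M1 M2 : Machine) (p : Polynomial ℕ)
    (h1 : ∀ x : RInf, S x.1.length = true → ∃ s, mrun M1 (p.eval x.1.length) (initSt x.1) =
      some (decide (x ∈ A), s))
    (h2 : ∀ x : RInf, ¬ S x.1.length = true → ∃ s, mrun M2 (p.eval x.1.length) (initSt x.1) =
      some (decide (x ∈ A), s)) : A ∈ PR := by
  obtain ⟨M, hM⟩ := exists_bitM S M1 M2
  refine ⟨M, 13 * Polynomial.X + 29 + p, fun x => ?_⟩
  have he : (13 * Polynomial.X + 29 + p : Polynomial ℕ).eval x.1.length =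
      13 * x.1.length + 29 + p.eval x.1.length := by
    simp
  rw [he]
  by_cases h : S x.1.length = true
  · obtain ⟨s, hs⟩ := h1 x h
    refine ⟨s, hM _ _ _ _ (initSt_reg0 x.1) ?_⟩
    rw [if_pos h, cleaned_initSt]
    exact hs
  · obtain ⟨s, hs⟩ := h2 x h
    refine ⟨s, hM _ _ _ _ (initSt_reg0 x.1) ?_⟩
    rw [if_neg h, cleaned_initSt]
    exact hs

theorem cut_union {L : Set RInf} {S1 S2 : ℕ → Bool} (h1 : cut L S1 ∈ PR) (h2 : cut L S2 ∈ PR) :
    cut L (fun n => S1 n || S2 n) ∈ PR := by
  obtain ⟨M1, p1, h1⟩ := h1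
  obtain ⟨M2, p2, h2⟩ := h2
  refine mem_PR_of_cases S1 M1 M2 (p1 + p2) (fun x hx => ?_) (fun x hx => ?_)
  · obtain ⟨s, hs⟩ := h1 x
    refine ⟨s, ?_⟩
    have e : (decide (x ∈ cut L fun n => S1 n || S2 n)) = decide (x ∈ cut L S1) := by
      apply decide_eq_decide.2
      simp [cut, hx]
      tauto
    rw [e]
    exact mrun_mono hs (by simp)
  · obtain ⟨s, hs⟩ := h2 x
    refine ⟨s, ?_⟩
    have e : (decide (x ∈ cut L fun n => S1 n || S2 n)) = decide (x ∈ cut L S2) := by
      apply decide_eq_decide.2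
      simp [cut, hx]
    rw [e]
    exact mrun_mono hs (by simp)

theorem cut_mono {L : Set RInf} {S1 S2 : ℕ → Bool} (h : ∀ n, S1 n = true → S2 n = true)
    (h2 : cut L S2 ∈ PR) : cut L S1 ∈ PR := by
  obtain ⟨M2, p2, h2⟩ := h2
  refine mem_PR_of_cases S1 M2 (haltM false) (p2 + 1) (fun x hx => ?_) (fun x hx => ?_)
  · obtain ⟨s, hs⟩ := h2 x
    refine ⟨s, ?_⟩
    have e : (decide (x ∈ cut L S1)) = decide (x ∈ cut L S2) := by
      apply decide_eq_decide.2
      simp [cut, hx, h _ hx]
    rw [e]
    exact mrun_mono hs (by simp)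
  · refine ⟨initSt x.1, ?_⟩
    have e : (decide (x ∈ cut L S1)) = false := by
      apply decide_eq_false
      intro hh
      exact hx hh.2
    rw [e]
    exact mrun_mono (mrun_haltM false _) (by simp)

theorem cut_fin {L : Set RInf} (hL : L ∈ NPR) {S : ℕ → Bool} {k : ℕ}
    (h : ∀ n, S n = true → n < k) : cut L S ∈ PR := by
  obtain ⟨E, T, hE⟩ := exists_interp hL
  refine mem_PR_of_cases S E (haltM false) ((∑ n ∈ Finset.range k, T n : ℕ) + 1 : ℕ)
    (fun x hx => ?_) (fun x hx => ?_)
  · obtain ⟨s, hs⟩ := hE x (initSt x.1) rfl (fun i _ => rfl)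
    refine ⟨s, ?_⟩
    have e : (decide (x ∈ cut L S)) = decide (x ∈ L) := by
      apply decide_eq_decide.2
      simp [cut, hx]
    rw [e]
    refine mrun_mono hs ?_
    rw [Polynomial.eval_natCast]
    have : T x.1.length ≤ ∑ n ∈ Finset.range k, T n :=
      Finset.single_le_sum (f := T) (fun _ _ => Nat.zero_le _) (Finset.mem_range.2 (h _ hx))
    simp only [Nat.cast_id]
    omega
  · refine ⟨initSt x.1, ?_⟩
    have e : (decide (x ∈ cut L S)) = false := by
      apply decide_eq_false
      intro hh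
      exact hx hh.2
    rw [e]
    refine mrun_mono (mrun_haltM false _) ?_
    rw [Polynomial.eval_natCast]
    simp

lemma eval_mono (p : Polynomial ℕ) {a b : ℕ} (h : a ≤ b) : p.eval a ≤ p.eval b := by
  rw [Polynomial.eval_eq_sum, Polynomial.eval_eq_sum]
  unfold Polynomial.sum
  exact Finset.sum_le_sum fun i _ => Nat.mul_le_mul_left _ (Nat.pow_le_pow_left h i)

/-- restrictions of problems in `NPR` are in `NPR` -/
theorem cut_mem_NPR {L : Set RInf} (hL : L ∈ NPR) (S : ℕ → Bool) : cut L S ∈ NPR := by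
  obtain ⟨M, p, q, hM, hL⟩ := hL
  set S' : ℕ → Bool := fun N => decide (∃ n, S n = true ∧ n + q.eval n = N) with hS'
  have hS'n : ∀ n, S' (n + q.eval n) = S n := by
    intro n
    by_cases h : S n = true
    · rw [h]
      simp only [hS', decide_eq_true_eq]
      exact ⟨n, h, rfl⟩
    · have h' : S n = false := by simpa using h
      rw [h']
      simp only [hS', decide_eq_false_iff_not]
      rintro ⟨n', hn', he⟩
      have : n' = n := by
        rcases lt_trichotomy n' n with h1 | h1 | h1
        · have := eval_mono q h1.le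
          omega
        · exact h1
        · have := eval_mono q h1.le
          omega
      rw [this] at hn'
      exact h hn'
  obtain ⟨M', hM'⟩ := exists_bitM S' M (haltM false)
  have htot : ∀ z : RInf, ∃ b s, mrun (if S' z.1.length = true then M else haltM false)
      (p.eval z.1.length + 1) (initSt z.1) = some (b, s) := by
    intro z
    by_cases h : S' z.1.length = true
    · rw [if_pos h]
      obtain ⟨b, s, hs⟩ := hM z
      exact ⟨b, s, mrun_mono hs (by omega)⟩
    · rw [if_neg h]
      exact ⟨false, initSt z.1, mrun_mono (mrun_haltM false _) (by omega)⟩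
  have he : ∀ n : ℕ, (13 * Polynomial.X + 29 + (p + 1) : Polynomial ℕ).eval n =
      13 * n + 29 + (p.eval n + 1) := by
    intro n
    simp
  have hrunM : ∀ (z : RInf) (b : Bool) (s : St), mrun (if S' z.1.length = true then M else
      haltM false) (p.eval z.1.length + 1) (initSt z.1) = some (b, s) →
      M'.outcome ((13 * Polynomial.X + 29 + (p + 1) : Polynomial ℕ).eval z.1.length) z.1 =
        some (b, s) := by
    intro z b s h
    rw [he]
    refine hM' z.1.length (initSt z.1) _ _ (initSt_reg0 z.1) ?_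
    rw [cleaned_initSt]
    exact h
  refine ⟨M', 13 * Polynomial.X + 29 + (p + 1), q, fun z => ?_, fun x => ?_⟩
  · obtain ⟨b, s, h⟩ := htot z
    exact ⟨b, s, hrunM z b s h⟩
  · have hcat : ∀ y : List ℝ, y.length = q.eval x.1.length → ((x.1 ++ y) ≠ [] ∧
        (x.1 ++ y).length = x.1.length + q.eval x.1.length) := by
      intro y hy
      refine ⟨fun h => x.2 (List.append_eq_nil_iff.1 h).1, by simp [hy]⟩
    constructor
    · rintro ⟨hxL, hxS⟩
      obtain ⟨y, hy, s, hs⟩ := (hL x).1 hxL
      obtain ⟨hne, hlen⟩ := hcat y hy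
      refine ⟨y, hy, s, hrunM ⟨x.1 ++ y, hne⟩ true s ?_⟩
      have : S' (x.1 ++ y).length = true := by rw [hlen, hS'n]; exact hxS
      rw [if_pos this]
      exact mrun_mono hs (by simp)
    · rintro ⟨y, hy, s, hs⟩
      obtain ⟨hne, hlen⟩ := hcat y hy
      obtain ⟨b, s', h⟩ := htot ⟨x.1 ++ y, hne⟩
      have h2 := hrunM ⟨x.1 ++ y, hne⟩ b s' h
      simp only at h2
      rw [h2] at hs
      simp only [Option.some.injEq, Prod.mk.injEq] at hs
      obtain ⟨hb, -⟩ := hs
      subst hb
      by_cases h3 : S' (x.1 ++ y).length = true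
      · simp only at h
        rw [if_pos h3] at h
        refine ⟨?_, by rw [hlen, hS'n] at h3; exact h3⟩
        rw [hL]
        obtain ⟨b', s'', h4⟩ := hM ⟨x.1 ++ y, hne⟩
        have h5 : mrun M (p.eval (x.1 ++ y).length + 1) (initSt (x.1 ++ y)) = some (b', s'') :=
          mrun_mono h4 (by simp)
        rw [h5] at h
        simp only [Option.some.injEq, Prod.mk.injEq] at h
        obtain ⟨rfl, -⟩ := h
        exact ⟨y, hy, s'', h4⟩
      · simp only at h
        rw [if_neg h3] at h
        have h5 : mrun (haltM false) (p.eval (x.1 ++ y).length + 1) (initSt (x.1 ++ y)) =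
            some (false, initSt (x.1 ++ y)) := mrun_mono (mrun_haltM false _) (by simp)
        rw [h5] at h
        simp at h

/-- If `L` reduces to its restriction to the sizes in `S`, then the restriction of `L` to the
sizes in `W` is in `PR`, as soon as the sizes in `S` which are reached from a size `n` in `W`
are decided by the interpreter in time `n`. -/
theorem exists_bound_of_reduces {L : Set RInf} {E : Machine} {T : ℕ → ℕ}
    (hE : ∀ (x : RInf) (s : St), s.reg 0 = (x.1.length : ℝ) →
      (∀ i < x.1.length, s.mem i = x.1.getD i 0) →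
      ∃ s', mrun E (T x.1.length) s = some (decide (x ∈ L), s'))
    {S : ℕ → Bool} (hred : Reduces L (cut L S)) : ∃ p : Polynomial ℕ, ∀ W : ℕ → Bool,
      (∀ n, W n = true → ∀ m ≤ p.eval n, S m = true → T m ≤ n) → cut L W ∈ PR := by
  obtain ⟨f, ⟨Mf, p, hf⟩, hfL⟩ := hred
  obtain ⟨M1, hM1⟩ := exists_bitM S E (haltM false)
  obtain ⟨M2, hM2⟩ := exists_andThen Mf M1
  refine ⟨p, fun W hW => ?_⟩
  refine mem_PR_of_cases W M2 (haltM false)
    (p + (13 * p + 29 + (Polynomial.X + 1))) (fun x hx => ?_) (fun x hx => ?_)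
  · obtain ⟨hlen, b, s, hrun, hs0, hsm⟩ := hf x
    set m := (f x).1.length with hm
    have hkey : ∃ s', mrun (if S m = true then E else haltM false) (x.1.length + 1) (cleaned s) =
        some (decide (x ∈ cut L W), s') := by
      by_cases h : S m = true
      · rw [if_pos h]
        obtain ⟨s', hs'⟩ := hE (f x) (cleaned s) (by simp [cleaned, hs0]; rfl)
          (fun i hi => by simpa [cleaned] using hsm i hi)
        have e : (decide (x ∈ cut L W)) = decide (f x ∈ L) := by
          apply decide_eq_decide.2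
          have h1 : x ∈ cut L W ↔ x ∈ L := by simp [cut, hx]
          rw [h1, hfL]
          simp only [cut, Set.mem_ofPred_eq]
          constructor
          · rintro ⟨h2, -⟩
            exact h2
          · intro h2
            exact ⟨h2, h⟩
        rw [e]
        have hT : T m ≤ x.1.length := hW _ hx m hlen h
        exact ⟨s', mrun_mono hs' (hT.trans (Nat.le_succ _))⟩
      · rw [if_neg h]
        have e : (decide (x ∈ cut L W)) = false := by
          apply decide_eq_false
          intro hh
          have := (hfL x).1 hh.1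
          exact h this.2
        rw [e]
        exact ⟨_, mrun_mono (mrun_haltM false _) (by omega)⟩
    obtain ⟨s', hs'⟩ := hkey
    have h1 := hM1 m s _ _ hs0 hs'
    have h2 := hM2 _ _ _ _ _ _ hrun h1
    refine ⟨s', mrun_mono h2 ?_⟩
    simp only [Polynomial.eval_add, Polynomial.eval_mul, Polynomial.eval_ofNat,
      Polynomial.eval_X, Polynomial.eval_one]
    omega
  · refine ⟨initSt x.1, ?_⟩
    have e : (decide (x ∈ cut L W)) = false := by
      apply decide_eq_false
      intro hh
      exact hx hh.2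
    rw [e]
    refine mrun_mono (mrun_haltM false _) ?_
    simp only [Polynomial.eval_add, Polynomial.eval_mul, Polynomial.eval_ofNat,
      Polynomial.eval_X, Polynomial.eval_one]
    omega

end Pool.Agent.V7H67.LR
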