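import Pool.Agent.V7H67.LR.Bits

/-!
# An interpreter for formulas stored in the digits of a real constant
-/

set_option autoImplicit false

namespace Pool.Agent.V7H67.LR

open Pool.Agent.H581R2

/-- the state of the interpreter -/
structure ISt where
  /-- pointer to a variable -/
  ptr : ℕ
  /-- current monomial -/
  mono : ℝ
  /-- current polynomial -/
  poly : ℝ
  /-- current conjunction (`0` or `1`) -/
  clause : ℝ
  /-- sum of the conjunctions -/
  flag : ℝ
  /-- number of formulas still to be skipped -/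
  cnt : ℝ

/-- the effect of one operation -/
noncomputable def opStep (w : ℕ → ℝ) (o : ℕ) (σ : ISt) : ISt :=
  match o with
  | 0 => { σ with ptr := 0 }
  | 1 => { σ with ptr := σ.ptr + 1 }
  | 2 => { σ with mono := σ.mono * w σ.ptr }
  | 3 => { σ with poly := σ.poly + σ.mono }
  | 4 => { σ with mono := 1 }
  | 5 => { σ with mono := -σ.mono }
  | 6 => { σ with clause := if 0 ≤ σ.poly then σ.clause else 0 }
  | 7 => { σ with clause := if 0 ≤ σ.poly then 0 else σ.clause }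
  | 8 => { σ with poly := -σ.poly }
  | 9 => { σ with poly := 0 }
  | 10 => { σ with flag := σ.flag + σ.clause, clause := 1 }
  | _ => σ

/-- the effect of a list of operations -/
noncomputable def runOps (w : ℕ → ℝ) (u : List ℕ) (σ : ISt) : ISt :=
  u.foldl (fun σ o => opStep w o σ) σ

/-- the command for one operation -/
def opBody : ℕ → Cmd
  | 0 => acts [.zero 0]
  | 1 => acts [.inc 0]
  | 2 => acts [.load 12 0, .mul 9 9 12]
  | 3 => acts [.add 8 8 9]
  | 4 => acts [.add 9 2 4]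
  | 5 => acts [.sub 9 4 9]
  | 6 => .ite 8 .skip (acts [.add 10 4 4])
  | 7 => .ite 8 (acts [.add 10 4 4]) .skip
  | 8 => acts [.sub 8 4 8]
  | 9 => acts [.add 8 4 4]
  | 10 => acts [.add 11 11 10, .add 10 2 4]
  | _ => .seq (acts [.sub 5 5 2])
      (.ite 5 (acts [.add 8 4 4, .add 9 2 4, .add 10 2 4, .add 11 4 4]) (acts [.sub 7 4 2]))

/-- the machine state represents the state `σ` of the interpreter; `w` is the contents of the
array and `f` the rest of the code -/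
structure Rel (w : ℕ → ℝ) (f : ℝ) (σ : ISt) (s : St) : Prop where
  r1 : s.reg 1 = f
  r2 : s.reg 2 = 1
  r3 : s.reg 3 = 16
  r4 : s.reg 4 = 0
  r5 : s.reg 5 = σ.cnt
  r8 : s.reg 8 = σ.poly
  r9 : s.reg 9 = σ.mono
  r10 : s.reg 10 = σ.clause
  r11 : s.reg 11 = σ.flag
  ptr : s.idx 0 = σ.ptr
  mem : s.mem = w

lemma opBody_exec (cs : List ℝ) {w : ℕ → ℝ} {f : ℝ} {σ : ISt} {s : St} (h : Rel w f σ s)
    (h7 : s.reg 7 = 0) {o : ℕ} (ho : o < 11) :
    ∃ s', Exec cs (opBody o) s 5 s' ∧ Rel w f (opStep w o σ) s' ∧ s'.reg 7 = 0 := by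
  obtain ⟨a1, a2, a3, a4, a5, a8, a9, a10, a11, ap, am⟩ := h
  interval_cases o
  · refine ⟨_, (exec_acts cs [.zero 0] s).mono (by simp), ⟨?_, ?_, ?_, ?_, ?_, ?_, ?_, ?_, ?_, ?_,
      ?_⟩, ?_⟩ <;> simp [Act.run, opStep, *]
  · refine ⟨_, (exec_acts cs [.inc 0] s).mono (by simp), ⟨?_, ?_, ?_, ?_, ?_, ?_, ?_, ?_, ?_, ?_,
      ?_⟩, ?_⟩ <;> simp [Act.run, opStep, *]
  · refine ⟨_, (exec_acts cs [.load 12 0, .mul 9 9 12] s).mono (by simp), ⟨?_, ?_, ?_, ?_, ?_, ?_,
      ?_, ?_, ?_, ?_, ?_⟩, ?_⟩ <;> simp [Act.run, opStep, *]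
  · refine ⟨_, (exec_acts cs [.add 8 8 9] s).mono (by simp), ⟨?_, ?_, ?_, ?_, ?_, ?_, ?_, ?_, ?_,
      ?_, ?_⟩, ?_⟩ <;> simp [Act.run, opStep, *]
  · refine ⟨_, (exec_acts cs [.add 9 2 4] s).mono (by simp), ⟨?_, ?_, ?_, ?_, ?_, ?_, ?_, ?_, ?_,
      ?_, ?_⟩, ?_⟩ <;> simp [Act.run, opStep, *]
  · refine ⟨_, (exec_acts cs [.sub 9 4 9] s).mono (by simp), ⟨?_, ?_, ?_, ?_, ?_, ?_, ?_, ?_, ?_,
      ?_, ?_⟩, ?_⟩ <;> simp [Act.run, opStep, *]
  · by_cases hp : 0 ≤ σ.poly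
    · refine ⟨s, .iteT (by rw [a8]; exact hp) (.skip s 1 le_rfl) (by norm_num), ⟨?_, ?_, ?_, ?_,
        ?_, ?_, ?_, ?_, ?_, ?_, ?_⟩, ?_⟩ <;> simp [opStep, *]
    · refine ⟨_, .iteF (by rw [a8]; exact not_le.1 hp) (exec_acts cs [.add 10 4 4] s) (by simp),
        ⟨?_, ?_, ?_, ?_, ?_, ?_, ?_, ?_, ?_, ?_, ?_⟩, ?_⟩ <;> simp [Act.run, opStep, *]
  · by_cases hp : 0 ≤ σ.poly
    · refine ⟨_, .iteT (by rw [a8]; exact hp) (exec_acts cs [.add 10 4 4] s) (by simp),
        ⟨?_, ?_, ?_, ?_, ?_, ?_, ?_, ?_, ?_, ?_, ?_⟩, ?_⟩ <;> simp [Act.run, opStep, *]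
    · refine ⟨s, .iteF (by rw [a8]; exact not_le.1 hp) (.skip s 1 le_rfl) (by norm_num), ⟨?_, ?_,
        ?_, ?_, ?_, ?_, ?_, ?_, ?_, ?_, ?_⟩, ?_⟩ <;> simp [opStep, *]
  · refine ⟨_, (exec_acts cs [.sub 8 4 8] s).mono (by simp), ⟨?_, ?_, ?_, ?_, ?_, ?_, ?_, ?_, ?_,
      ?_, ?_⟩, ?_⟩ <;> simp [Act.run, opStep, *]
  · refine ⟨_, (exec_acts cs [.add 8 4 4] s).mono (by simp), ⟨?_, ?_, ?_, ?_, ?_, ?_, ?_, ?_, ?_,
      ?_, ?_⟩, ?_⟩ <;> simp [Act.run, opStep, *]
  · refine ⟨_, (exec_acts cs [.add 11 11 10, .add 10 2 4] s).mono (by simp), ⟨?_, ?_, ?_, ?_, ?_,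
      ?_, ?_, ?_, ?_, ?_, ?_⟩, ?_⟩ <;> simp [Act.run, opStep, *]

/-- end of a formula which is not the one wanted -/
lemma opEnd_continue (cs : List ℝ) {w : ℕ → ℝ} {f : ℝ} {σ : ISt} {s : St} (h : Rel w f σ s)
    (h7 : s.reg 7 = 0) (hc : 1 ≤ σ.cnt) :
    ∃ s', Exec cs (opBody 11) s 8 s' ∧ Rel w f ⟨σ.ptr, 1, 0, 1, 0, σ.cnt - 1⟩ s' ∧
      s'.reg 7 = 0 := by
  obtain ⟨a1, a2, a3, a4, a5, a8, a9, a10, a11, ap, am⟩ := h
  have e1 := exec_acts cs [.sub 5 5 2] s
  set s1 : St := [Act.sub 5 5 2].foldl (fun s a => a.run cs s) s with hs1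
  have e2 := exec_acts cs [.add 8 4 4, .add 9 2 4, .add 10 2 4, .add 11 4 4] s1
  refine ⟨_, .seq e1 (.iteT ?_ e2 (t := 6) (by simp)) (by simp), ⟨?_, ?_, ?_, ?_, ?_, ?_, ?_, ?_,
    ?_, ?_, ?_⟩, ?_⟩ <;> simp [hs1, Act.run, *]

/-- end of the formula wanted -/
lemma opEnd_stop (cs : List ℝ) {w : ℕ → ℝ} {f : ℝ} {σ : ISt} {s : St} (h : Rel w f σ s)
    (hc : σ.cnt < 1) :
    ∃ s', Exec cs (opBody 11) s 5 s' ∧ s'.reg 7 < 0 ∧ s'.reg 11 = σ.flag ∧ s'.reg 2 = 1 ∧
      s'.reg 4 = 0 := by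
  obtain ⟨a1, a2, a3, a4, a5, a8, a9, a10, a11, ap, am⟩ := h
  have e1 := exec_acts cs [.sub 5 5 2] s
  set s1 : St := [Act.sub 5 5 2].foldl (fun s a => a.run cs s) s with hs1
  have e2 := exec_acts cs [.sub 7 4 2] s1
  refine ⟨_, .seq e1 (.iteF ?_ e2 (t := 3) (by simp)) (by simp), ?_, ?_, ?_, ?_⟩ <;>
    simp [hs1, Act.run, *]

/-- dispatch on the integer part of register `1` -/
def disp : List Cmd → Cmd
  | [] => .skip
  | [b] => b
  | b :: b' :: bs => .seq (acts [.sub 6 1 2]) (.ite 6 (.seq (acts [.add 1 6 4]) (disp (b' :: bs))) b)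

lemma disp_exec (cs : List ℝ) {P : St → Prop} {w : ℕ → ℝ} {σ : ISt} {f : ℝ} (hf0 : 0 ≤ f)
    (hf1 : f < 1) (T : ℕ) : ∀ (bs : List Cmd) (v : ℕ) (hv : v < bs.length)
    (_ : ∀ s', Rel w f σ s' → s'.reg 7 = 0 → ∃ s'', Exec cs (bs[v]) s' T s'' ∧ P s'') (s : St),
    Rel w (v + f) σ s → s.reg 7 = 0 → ∃ s'', Exec cs (disp bs) s (T + 5 * v + 5) s'' ∧ P s'' := by
  intro bs
  induction bs with
  | nil => intro v hv; simp at hv
  | cons b bs ih =>
    intro v hv hbody s hs h7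
    cases bs with
    | nil =>
      have hv0 : v = 0 := by simpa using hv
      subst hv0
      obtain ⟨s'', hex, hP⟩ := hbody s (by simpa using hs) h7
      exact ⟨s'', hex.mono (by omega), hP⟩
    | cons b' bs =>
      have e1 := exec_acts cs [.sub 6 1 2] s
      set s1 : St := [Act.sub 6 1 2].foldl (fun s a => a.run cs s) s with hs1
      obtain ⟨a1, a2, a3, a4, a5, a8, a9, a10, a11, ap, am⟩ := hs
      have e6 : s1.reg 6 = v + f - 1 := by simp [hs1, Act.run, *]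
      cases v with
      | zero =>
        have hneg : s1.reg 6 < 0 := by rw [e6]; push_cast; linarith
        obtain ⟨s'', hex, hP⟩ := hbody s1 (by
          refine ⟨?_, ?_, ?_, ?_, ?_, ?_, ?_, ?_, ?_, ?_, ?_⟩ <;> simp [hs1, Act.run, *])
          (by simp [hs1, Act.run, *])
        exact ⟨s'', .seq e1 (.iteF hneg hex le_rfl) (by simp only [List.length_cons, List.length_nil]; omega), hP⟩
      | succ v =>
        have hpos : 0 ≤ s1.reg 6 := by
          rw [e6]
          have : (0 : ℝ) ≤ v := Nat.cast_nonneg v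
          push_cast; linarith
        have e2 := exec_acts cs [.add 1 6 4] s1
        set s2 : St := [Act.add 1 6 4].foldl (fun s a => a.run cs s) s1 with hs2
        obtain ⟨s'', hex, hP⟩ := ih v (by simpa using hv) (fun s' hs' h7' => by
          have := hbody s' hs' h7'
          simpa using this) s2 (by
          have e16 : s2.reg 1 = v + f := by
            have : s2.reg 1 = s1.reg 6 + s1.reg 4 := by simp [hs2, Act.run]
            have h4 : s1.reg 4 = 0 := by simp [hs1, Act.run, *]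
            rw [this, e6, h4]; push_cast; ring
          refine ⟨e16, ?_, ?_, ?_, ?_, ?_, ?_, ?_, ?_, ?_, ?_⟩ <;> simp [hs2, hs1, Act.run, *])
          (by simp [hs2, hs1, Act.run, *])
        exact ⟨s'', .seq e1 (.iteT hpos (.seq e2 hex le_rfl) le_rfl) (by
          simp only [List.length_cons, List.length_nil]; omega), hP⟩

/-- the list of the commands of the operations -/
def bodies : List Cmd := (List.range 12).map opBody

/-- one round of the interpreter -/
def roundC : Cmd := .seq (acts [.mul 1 1 3]) (disp bodies)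

lemma bodies_get {v : ℕ} (hv : v < 12) : bodies[v]'(by simpa [bodies] using hv) = opBody v := by
  simp [bodies]

lemma round_exec (cs : List ℝ) {P : St → Prop} {w : ℕ → ℝ} {σ : ISt} {d : ℕ → ℕ}
    (hd : ∀ i, d i ≤ 11) (k T : ℕ)
    (hbody : ∀ s', Rel w (dval (sh (k + 1) d)) σ s' → s'.reg 7 = 0 →
      ∃ s'', Exec cs (opBody (d k)) s' T s'' ∧ P s'')
    {s : St} (hs : Rel w (dval (sh k d)) σ s) (h7 : s.reg 7 = 0) :
    ∃ s'', Exec cs roundC s (T + 70) s'' ∧ P s'' := by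
  have hd14 : ∀ i, d i ≤ 14 := fun i => (hd i).trans (by norm_num)
  have e1 := exec_acts cs [.mul 1 1 3] s
  set s1 : St := [Act.mul 1 1 3].foldl (fun s a => a.run cs s) s with hs1
  obtain ⟨a1, a2, a3, a4, a5, a8, a9, a10, a11, ap, am⟩ := hs
  have hk := hd k
  obtain ⟨s'', hex, hP⟩ := disp_exec cs (P := P) (w := w) (σ := σ)
    (dval_nonneg (sh (k + 1) d)) (dval_lt_one (sh_le hd14 (k + 1))) T bodies (d k)
    (by simp only [bodies, List.length_map, List.length_range]; omega) (by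
      rw [bodies_get (by omega)]; exact hbody) s1 (by
      have e11 : s1.reg 1 = d k + dval (sh (k + 1) d) := by
        rw [← dval_step hd14 k, ← a1, ← a3]; simp [hs1, Act.run]
      refine ⟨e11, ?_, ?_, ?_, ?_, ?_, ?_, ?_, ?_, ?_, ?_⟩ <;> simp [hs1, Act.run, *])
      (by simp [hs1, Act.run, *])
  exact ⟨s'', .seq e1 hex (by simp only [List.length_cons, List.length_nil]; omega), hP⟩

/-- the stream `d` reads `u` from position `k` on -/
def Reads (d : ℕ → ℕ) (k : ℕ) (u : List ℕ) : Prop := ∀ i (hi : i < u.length), d (k + i) = u[i]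

/-- the interpreter on a list of operations without an end of formula -/
lemma loop_ops (cs : List ℝ) {P : St → Prop} {w : ℕ → ℝ} {d : ℕ → ℕ} (hd : ∀ i, d i ≤ 11)
    (T : ℕ) : ∀ (u : List ℕ) (_ : ∀ o ∈ u, o < 11) (k : ℕ) (_ : Reads d k u) (σ : ISt)
    (_ : ∀ s', Rel w (dval (sh (k + u.length) d)) (runOps w u σ) s' → s'.reg 7 = 0 →
      ∃ s'', Exec cs (.loop 7 roundC) s' T s'' ∧ P s'')
    (s : St), Rel w (dval (sh k d)) σ s → s.reg 7 = 0 →
      ∃ s'', Exec cs (.loop 7 roundC) s (T + 80 * u.length) s'' ∧ P s'' := by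
  intro u
  induction u with
  | nil =>
    intro _ k _ σ hrest s hs h7
    obtain ⟨s'', hex, hP⟩ := hrest s (by simpa [runOps] using hs) h7
    exact ⟨s'', hex.mono (by simp), hP⟩
  | cons o u ih =>
    intro hu k hk σ hrest s hs h7
    have hdk : d k = o := by
      have := hk 0 (by simp)
      simpa only [List.getElem_cons_zero, Nat.add_zero] using this
    have ho : o < 11 := hu o (by simp)
    obtain ⟨s1, hex1, hrel1, h71⟩ := round_exec cs
      (P := fun s' => Rel w (dval (sh (k + 1) d)) (opStep w o σ) s' ∧ s'.reg 7 = 0) hd k 5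
      (fun s' hs' h7' => by
        rw [hdk]
        exact opBody_exec cs hs' h7' ho) hs h7
    obtain ⟨s2, hex2, hP⟩ := ih (fun o' ho' => hu o' (by simp [ho'])) (k + 1) (by
        intro i hi
        have := hk (i + 1) (by simpa using hi)
        simp only [List.getElem_cons_succ] at this
        rw [← this]
        congr 1
        ring) (opStep w o σ) (fun s' hs' h7' => by
          refine hrest s' ?_ h7'
          have e : k + (o :: u).length = k + 1 + u.length := by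
            simp only [List.length_cons]; ring
          rw [e]
          exact hs') s1 hrel1 h71
    refine ⟨s2, .whileT (by rw [h7]) hex1 hex2 ?_, hP⟩
    simp only [List.length_cons]
    omega

end Pool.Agent.V7H67.LR
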