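import Pool.Agent.V7H67.LR.Cmd

/-!
# Linking machines
-/

set_option autoImplicit false

namespace Pool.Agent.V7H67.LR

open Pool.Agent.H581R2

/-- change of the indices of the constants -/
def reAct (f : ℕ → ℕ) : Act → Act
  | .const r i => .const r (f i)
  | a => a

/-- change of the indices of the constants -/
def reNode {Λ : Type} (f : ℕ → ℕ) : Node Λ → Node Λ
  | .act a l => .act (reAct f a) l
  | n => n

lemma reAct_run {f : ℕ → ℕ} {cs cs' : List ℝ} (h : ∀ i, cs'.getD (f i) 0 = cs.getD i 0)
    (a : Act) (s : St) : (reAct f a).run cs' s = a.run cs s := by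
  cases a <;> simp only [reAct, Act.run]
  rw [h]

lemma run_re {Λ : Type} {f : ℕ → ℕ} {cs cs' : List ℝ}
    (h : ∀ i, cs'.getD (f i) 0 = cs.getD i 0) (nd : Λ → Node Λ) (t : ℕ) (l : Λ) (s : St) :
    run cs' (fun l => reNode f (nd l)) t l s = run cs nd t l s := by
  induction t generalizing l s with
  | zero => rfl
  | succ t ih =>
    rw [run, run]
    cases hl : nd l with
    | act a l' =>
      simp only [reNode]
      rw [reAct_run h]
      exact ih _ _
    | branch r y n => exact ih _ _
    | halt b => rfl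

/-- the index of a constant in a longer list -/
def ofs (o len tot i : ℕ) : ℕ := if i < len then o + i else tot

lemma getD_ofs (a cs b : List ℝ) (i : ℕ) :
    (a ++ cs ++ b).getD (ofs a.length cs.length (a ++ cs ++ b).length i) 0 = cs.getD i 0 := by
  unfold ofs
  by_cases h : i < cs.length
  · rw [if_pos h]
    simp [List.getD, List.getElem?_append, h]
  · rw [if_neg h]
    simp [List.getD, h]

/-- run of a machine from arbitrary contents -/
noncomputable def mrun (M : Machine) (t : ℕ) (s : St) : Option (Bool × St) :=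
  run M.consts M.node t M.start s

lemma mrun_mono {M : Machine} {t t' : ℕ} {s : St} {r : Bool × St} (h : mrun M t s = some r)
    (htt : t ≤ t') : mrun M t' s = some r := run_mono' _ _ h htt

lemma exists_machine {Λ : Type} [Finite Λ] (cs : List ℝ) (nd : Λ → Node Λ) (l0 : Λ) :
    ∃ M : Machine, M.consts = cs ∧ ∀ t s, mrun M t s = run cs nd t l0 s := by
  obtain ⟨nd', _, h⟩ := exists_fin_prog nd l0 (N := Nat.card Λ) (by omega)
  exact ⟨⟨Nat.card Λ + 1, nd', 0, cs⟩, rfl, fun t s => h cs t s⟩

/-- halting nodes replaced by a jump -/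
def jumpAt {Λ Λ' : Type} (emb : Λ → Λ') (next : Λ') : Node Λ → Node Λ'
  | .halt _ => .branch 0 next next
  | .act a l => .act a (emb l)
  | .branch r y n => .branch r (emb y) (emb n)

lemma reach_jump {Λ Λ' : Type} {cs : List ℝ} {nd : Λ → Node Λ} {nd' : Λ' → Node Λ'}
    (emb : Λ → Λ') (next : Λ') (h : ∀ l, nd' (emb l) = jumpAt emb next (nd l)) :
    ∀ (t : ℕ) (l : Λ) (s : St) (b : Bool) (s' : St), run cs nd t l s = some (b, s') →
      Reach cs nd' t (emb l) s next s' := by
  intro t
  induction t with
  | zero => intro l s b s' hrun; simp [run] at hrun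
  | succ t ih =>
    intro l s b s' hrun
    rw [run] at hrun
    have hl' := h l
    cases hl : nd l with
    | halt b' =>
      rw [hl] at hrun hl'
      simp only [Option.some.injEq, Prod.mk.injEq] at hrun
      obtain ⟨_, rfl⟩ := hrun
      have h2 : Reach cs nd' 1 (emb l) s next s := by
        by_cases hs : 0 ≤ s.reg 0
        · exact Reach.yes hl' hs
        · exact Reach.no hl' (not_le.1 hs)
      exact h2.mono (by omega)
    | act a l' =>
      rw [hl] at hrun hl'
      have e1 : Reach cs nd' 1 (emb l) s (emb l') (a.run cs s) := Reach.act hl' s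
      exact (e1.trans (ih _ _ _ _ hrun)).mono (by omega)
    | branch r y n =>
      rw [hl] at hrun hl'
      by_cases hs : 0 ≤ s.reg r
      · have e1 : Reach cs nd' 1 (emb l) s (emb y) s := Reach.yes hl' hs
        simp only [if_pos hs] at hrun
        exact (e1.trans (ih _ _ _ _ hrun)).mono (by omega)
      · have e1 : Reach cs nd' 1 (emb l) s (emb n) s := Reach.no hl' (not_le.1 hs)
        simp only [if_neg hs] at hrun
        exact (e1.trans (ih _ _ _ _ hrun)).mono (by omega)

/-- sequential composition of machines -/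
theorem exists_andThen (M M' : Machine) : ∃ M'' : Machine, ∀ (t t' : ℕ) (s s' : St) (b : Bool)
    (r : Bool × St), mrun M t s = some (b, s') → mrun M' t' s' = some r →
      mrun M'' (t + t') s = some r := by
  set cs : List ℝ := M.consts ++ M'.consts with hcs
  set f1 : ℕ → ℕ := ofs 0 M.consts.length cs.length with hf1
  set f2 : ℕ → ℕ := ofs M.consts.length M'.consts.length cs.length with hf2
  have h1 : ∀ i, cs.getD (f1 i) 0 = M.consts.getD i 0 := by
    intro i
    have := getD_ofs [] M.consts M'.consts i
    simpa [hcs, hf1] using this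
  have h2 : ∀ i, cs.getD (f2 i) 0 = M'.consts.getD i 0 := by
    intro i
    have := getD_ofs M.consts M'.consts [] i
    simpa [hcs, hf2] using this
  let nd : (Fin M.size ⊕ Fin M'.size) → Node (Fin M.size ⊕ Fin M'.size) := fun l =>
    match l with
    | Sum.inl l => jumpAt Sum.inl (Sum.inr M'.start) (reNode f1 (M.node l))
    | Sum.inr l => (reNode f2 (M'.node l)).map Sum.inr
  obtain ⟨M'', _, hM''⟩ := exists_machine cs nd (Sum.inl M.start)
  refine ⟨M'', fun t t' s s' b r hr hr' => ?_⟩
  rw [hM'']
  have e1 : Reach cs nd t (Sum.inl M.start) s (Sum.inr M'.start) s' := by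
    refine reach_jump (nd := fun l => reNode f1 (M.node l)) Sum.inl (Sum.inr M'.start)
      (fun l => rfl) t M.start s b s' ?_
    rw [run_re h1]
    exact hr
  refine e1.run_some ?_
  rw [run_map cs (nd := fun l => reNode f2 (M'.node l)) Sum.inr (fun l => rfl), run_re h2]
  exact hr'

/-- labels of the branching machine -/
abbrev BL (c c1 c2 : Cmd) (M1 M2 : Machine) : Type :=
  Option (Pos c ⊕ (Pos c1 ⊕ Pos c2) ⊕ (Fin M1.size ⊕ Fin M2.size))

/-- Run the command `c`, then test the register `r`: if it is nonnegative, run `c1` and then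
`M1`, otherwise run `c2` and then `M2`. The constants of the commands come first. -/
theorem exists_branchM (cs : List ℝ) (c : Cmd) (r : ℕ) (c1 c2 : Cmd) (M1 M2 : Machine) :
    ∃ M : Machine, M.consts = cs ++ M1.consts ++ M2.consts ∧
      (∀ (t t1 T : ℕ) (s s1 s2 : St) (res : Bool × St), Exec M.consts c s t s1 → 0 ≤ s1.reg r →
        Exec M.consts c1 s1 t1 s2 → mrun M1 T s2 = some res →
        mrun M (t + 1 + t1 + T) s = some res) ∧
      (∀ (t t1 T : ℕ) (s s1 s2 : St) (res : Bool × St), Exec M.consts c s t s1 → s1.reg r < 0 →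
        Exec M.consts c2 s1 t1 s2 → mrun M2 T s2 = some res →
        mrun M (t + 1 + t1 + T) s = some res) := by
  have := finite_pos c
  have := finite_pos c1
  have := finite_pos c2
  set cs' : List ℝ := cs ++ M1.consts ++ M2.consts with hcs
  set f1 : ℕ → ℕ := ofs cs.length M1.consts.length cs'.length with hf1
  set f2 : ℕ → ℕ := ofs (cs ++ M1.consts).length M2.consts.length cs'.length with hf2
  have h1 : ∀ i, cs'.getD (f1 i) 0 = M1.consts.getD i 0 := getD_ofs cs M1.consts M2.consts
  have h2 : ∀ i, cs'.getD (f2 i) 0 = M2.consts.getD i 0 := by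
    intro i
    have := getD_ofs (cs ++ M1.consts) M2.consts [] i
    simpa [hcs, hf2] using this
  let eM1 : Fin M1.size → BL c c1 c2 M1 M2 := fun l => some (Sum.inr (Sum.inr (Sum.inl l)))
  let eM2 : Fin M2.size → BL c c1 c2 M1 M2 := fun l => some (Sum.inr (Sum.inr (Sum.inr l)))
  let e0 : Pos c → BL c c1 c2 M1 M2 := fun p => some (Sum.inl p)
  let e1 : Pos c1 → BL c c1 c2 M1 M2 := fun p => some (Sum.inr (Sum.inl (Sum.inl p)))
  let e2 : Pos c2 → BL c c1 c2 M1 M2 := fun p => some (Sum.inr (Sum.inl (Sum.inr p)))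
  let nd : BL c c1 c2 M1 M2 → Node (BL c c1 c2 M1 M2) := fun l =>
    match l with
    | none => .branch r (e1 (entry c1)) (e2 (entry c2))
    | some (Sum.inl p) => code c e0 none p
    | some (Sum.inr (Sum.inl (Sum.inl p))) => code c1 e1 (eM1 M1.start) p
    | some (Sum.inr (Sum.inl (Sum.inr p))) => code c2 e2 (eM2 M2.start) p
    | some (Sum.inr (Sum.inr (Sum.inl l))) => (reNode f1 (M1.node l)).map eM1
    | some (Sum.inr (Sum.inr (Sum.inr l))) => (reNode f2 (M2.node l)).map eM2
  obtain ⟨M, hMc, hM⟩ := exists_machine cs' nd (e0 (entry c))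
  refine ⟨M, hMc, ?_, ?_⟩
  · intro t t1 T s s1 s2 res hex hr hex1 hrun
    rw [hMc] at hex hex1
    rw [hM]
    have a1 := reach_of_exec hex nd e0 none (fun p => rfl)
    have a2 : Reach cs' nd 1 none s1 (e1 (entry c1)) s1 :=
      Reach.yes (nd := nd) (l := none) (n := e2 (entry c2)) rfl hr
    have a3 := reach_of_exec hex1 nd e1 (eM1 M1.start) (fun p => rfl)
    refine ((a1.trans a2).trans a3).run_some ?_
    rw [run_map cs' (nd := fun l => reNode f1 (M1.node l)) eM1 (fun l => rfl), run_re h1]
    exact hrun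
  · intro t t1 T s s1 s2 res hex hr hex1 hrun
    rw [hMc] at hex hex1
    rw [hM]
    have a1 := reach_of_exec hex nd e0 none (fun p => rfl)
    have a2 : Reach cs' nd 1 none s1 (e2 (entry c2)) s1 :=
      Reach.no (nd := nd) (l := none) (y := e1 (entry c1)) rfl hr
    have a3 := reach_of_exec hex1 nd e2 (eM2 M2.start) (fun p => rfl)
    refine ((a1.trans a2).trans a3).run_some ?_
    rw [run_map cs' (nd := fun l => reNode f2 (M2.node l)) eM2 (fun l => rfl), run_re h2]
    exact hrun

/-- the machine which halts at once -/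
def haltM (b : Bool) : Machine := ⟨1, fun _ => .halt b, 0, []⟩

lemma mrun_haltM (b : Bool) (s : St) : mrun (haltM b) 1 s = some (b, s) := rfl

end Pool.Agent.V7H67.LR
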