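import Pool.Agent.V7H67.LR.Interp

/-!
# The stream of all formulas, and the interpreter on it
-/

set_option autoImplicit false

namespace Pool.Agent.V7H67.LR

open Pool.Agent.H581R2

/-- start of the formula number `j` in the stream -/
def startP (cw : ℕ → List ℕ) : ℕ → ℕ
  | 0 => 0
  | j + 1 => startP cw j + (cw j).length + 1

/-- the first `j` formulas, each with an end mark -/
def prefL (cw : ℕ → List ℕ) : ℕ → List ℕ
  | 0 => []
  | j + 1 => prefL cw j ++ (cw j ++ [11])

lemma length_prefL (cw : ℕ → List ℕ) (j : ℕ) : (prefL cw j).length = startP cw j := by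
  induction j with
  | zero => rfl
  | succ j ih => simp [prefL, startP, ih]; ring

lemma le_startP (cw : ℕ → List ℕ) (j : ℕ) : j ≤ startP cw j := by
  induction j with
  | zero => exact le_rfl
  | succ j ih => simp only [startP]; omega

lemma getElem_prefL (cw : ℕ → List ℕ) {j n : ℕ} (hn : n < startP cw j) (k : ℕ) :
    (prefL cw (j + k))[n]? = (prefL cw j)[n]? := by
  induction k with
  | zero => rfl
  | succ k ih =>
    rw [← Nat.add_assoc, prefL, List.getElem?_append_left, ih]
    rw [length_prefL]
    have : startP cw j ≤ startP cw (j + k) := by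
      clear ih
      induction k with
      | zero => exact le_rfl
      | succ k ih => rw [← Nat.add_assoc]; simp only [startP]; omega
    omega

/-- the stream of digits -/
def stream (cw : ℕ → List ℕ) (n : ℕ) : ℕ := (prefL cw (n + 1))[n]?.getD 0

lemma stream_eq (cw : ℕ → List ℕ) {j n : ℕ} (hn : n < startP cw j) :
    stream cw n = (prefL cw j)[n]?.getD 0 := by
  unfold stream
  have h1 : n < startP cw (n + 1) := le_startP cw (n + 1)
  rcases le_total j (n + 1) with h | h
  · obtain ⟨k, hk⟩ := Nat.exists_eq_add_of_le h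
    rw [hk, getElem_prefL cw hn]
  · obtain ⟨k, hk⟩ := Nat.exists_eq_add_of_le h
    rw [hk, getElem_prefL cw h1]

lemma stream_le {cw : ℕ → List ℕ} (hcw : ∀ j, ∀ o ∈ cw j, o < 11) (n : ℕ) : stream cw n ≤ 11 := by
  have h1 : ∀ j, ∀ o ∈ prefL cw j, o ≤ 11 := by
    intro j
    induction j with
    | zero => intro o ho; simp [prefL] at ho
    | succ j ih =>
      intro o ho
      simp only [prefL, List.mem_append, List.mem_singleton] at ho
      rcases ho with ho | ho | ho
      · exact ih o ho
      · exact (hcw j o ho).le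
      · omega
  unfold stream
  cases h : (prefL cw (n + 1))[n]? with
  | none => simp
  | some o => exact h1 _ o (List.mem_of_getElem? h)

lemma stream_reads (cw : ℕ → List ℕ) (j : ℕ) :
    Reads (stream cw) (startP cw j) (cw j ++ [11]) := by
  intro i hi
  have h1 : startP cw j + i < startP cw (j + 1) := by
    simp only [startP]
    simp only [List.length_append, List.length_singleton] at hi
    omega
  rw [stream_eq cw h1, prefL, List.getElem?_append_right (by rw [length_prefL]; omega),
    length_prefL, Nat.add_sub_cancel_left, List.getElem?_eq_getElem hi]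
  rfl

lemma stream_reads' (cw : ℕ → List ℕ) (j : ℕ) : Reads (stream cw) (startP cw j) (cw j) := by
  intro i hi
  have := stream_reads cw j i (by simp; omega)
  rw [this, List.getElem_append_left hi]

lemma stream_end (cw : ℕ → List ℕ) (j : ℕ) :
    stream cw (startP cw j + (cw j).length) = 11 := by
  have := stream_reads cw j (cw j).length (by simp)
  rw [this]
  simp

lemma runOps_cnt (w : ℕ → ℝ) (u : List ℕ) (σ : ISt) : (runOps w u σ).cnt = σ.cnt := by
  induction u generalizing σ with
  | nil => rfl
  | cons o u ih =>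
    have h : (runOps w (o :: u) σ) = runOps w u (opStep w o σ) := rfl
    rw [h, ih]
    unfold opStep
    split <;> rfl

/-- time bound for the interpreter -/
def TB (cw : ℕ → List ℕ) (m : ℕ) : ℕ → ℕ
  | 0 => 80 * (cw m).length + 90
  | i + 1 => TB cw m i + 80 * (cw (m - (i + 1))).length + 90

/-- the interpreter reaches and evaluates the formula number `m` -/
lemma blocks_exec (cs : List ℝ) {cw : ℕ → List ℕ} (hcw : ∀ j, ∀ o ∈ cw j, o < 11) (m : ℕ)
    (w : ℕ → ℝ) : ∀ i, i ≤ m → ∀ (p : ℕ) (s : St),
      Rel w (dval (sh (startP cw (m - i)) (stream cw))) ⟨p, 1, 0, 1, 0, i⟩ s → s.reg 7 = 0 →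
      ∃ s'', Exec cs (.loop 7 roundC) s (TB cw m i) s'' ∧ s''.reg 2 = 1 ∧
        ∃ p', s''.reg 11 = (runOps w (cw m) ⟨p', 1, 0, 1, 0, 0⟩).flag := by
  have hd := stream_le hcw
  intro i
  induction i with
  | zero =>
    intro hi p s hs h7
    have h := loop_ops cs (P := fun s'' => s''.reg 2 = 1 ∧
        ∃ p', s''.reg 11 = (runOps w (cw m) ⟨p', 1, 0, 1, 0, 0⟩).flag) (w := w) hd 90
      (cw m) (hcw m) (startP cw m) (stream_reads' cw m) ⟨p, 1, 0, 1, 0, 0⟩ (by
        intro s' hs' h7'
        obtain ⟨s1, hex1, hneg, hfl, h2, h4⟩ := round_exec cs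
          (P := fun s1 => s1.reg 7 < 0 ∧ s1.reg 11 = (runOps w (cw m) ⟨p, 1, 0, 1, 0, 0⟩).flag ∧
            s1.reg 2 = 1 ∧ s1.reg 4 = 0) hd _ 5 (fun s1 hs1 _ => by
              rw [stream_end]
              exact opEnd_stop cs hs1 (by rw [runOps_cnt]; norm_num)) hs' h7'
        exact ⟨s1, .whileT (by rw [h7']) hex1 (.whileF hneg le_rfl) (by norm_num), h2, p, hfl⟩) s
      (by simpa using hs) h7
    obtain ⟨s'', hex, hP⟩ := h
    exact ⟨s'', hex.mono (by simp only [TB]; omega), hP⟩
  | succ i ih =>
    intro hi p s hs h7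
    set j := m - (i + 1) with hj
    have hj' : m - i = j + 1 := by omega
    have h := loop_ops cs (P := fun s'' => s''.reg 2 = 1 ∧
        ∃ p', s''.reg 11 = (runOps w (cw m) ⟨p', 1, 0, 1, 0, 0⟩).flag) (w := w) hd
      (TB cw m i + 90) (cw j) (hcw j) (startP cw j) (stream_reads' cw j)
      ⟨p, 1, 0, 1, 0, ((i + 1 : ℕ) : ℝ)⟩ (by
        intro s' hs' h7'
        obtain ⟨s1, hex1, hrel, h71⟩ := round_exec cs
          (P := fun s1 => Rel w (dval (sh (startP cw j + (cw j).length + 1) (stream cw)))
            ⟨(runOps w (cw j) ⟨p, 1, 0, 1, 0, ((i + 1 : ℕ) : ℝ)⟩).ptr, 1, 0, 1, 0, (i : ℝ)⟩ s1 ∧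
            s1.reg 7 = 0) hd _ 8 (fun s1 hs1 h71 => by
              rw [stream_end]
              obtain ⟨s2, hex2, hrel2, h72⟩ := opEnd_continue cs hs1 h71 (by
                rw [runOps_cnt]; push_cast
                have : (0 : ℝ) ≤ i := Nat.cast_nonneg i
                linarith)
              refine ⟨s2, hex2, ?_, h72⟩
              rw [runOps_cnt] at hrel2
              have e : (((i + 1 : ℕ) : ℝ) - 1) = (i : ℝ) := by push_cast; ring
              simp only [e] at hrel2
              exact hrel2) hs' h7'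
        obtain ⟨s2, hex2, hP⟩ := ih (by omega) _ s1 (by
          rw [hj']
          exact hrel) h71
        exact ⟨s2, .whileT (by rw [h7']) hex1 hex2 (by omega), hP⟩) s hs h7
    obtain ⟨s'', hex, hP⟩ := h
    exact ⟨s'', hex.mono (by rw [TB, ← hj]; omega), hP⟩

end Pool.Agent.V7H67.LR
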